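import Pool.Agent.N512.SA.Blk

/-!
# The representation `m · std ⊕ n · trivial` is simple `m`-Anosov
-/

set_option autoImplicit false

open scoped MatrixGroups UpperHalfPlane Matrix Topology Kronecker
open UpperHalfPlane

namespace Pool.Agent.N512.SA

open Pool.Agent.Y473.SA

variable {m n d : ℕ} (e : (Fin 2 × Fin m) ⊕ Fin n ≃ Fin d)

/-- The two diagonal matrix units. -/
def E0 : Matrix (Fin 2) (Fin 2) ℂ := !![1, 0; 0, 0]
def E1 : Matrix (Fin 2) (Fin 2) ℂ := !![0, 0; 0, 1]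

theorem E0_mul_E0 : E0 * E0 = E0 := by
  ext i j; fin_cases i <;> fin_cases j <;> simp [E0]
theorem E1_mul_E1 : E1 * E1 = E1 := by
  ext i j; fin_cases i <;> fin_cases j <;> simp [E1]
theorem E0_mul_E1 : E0 * E1 = 0 := by
  ext i j; fin_cases i <;> fin_cases j <;> simp [E0, E1]
theorem E1_mul_E0 : E1 * E0 = 0 := by
  ext i j; fin_cases i <;> fin_cases j <;> simp [E0, E1]
theorem E0_add_E1 : E0 + E1 = 1 := by
  ext i j; fin_cases i <;> fin_cases j <;> simp [E0, E1]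

/-- The matrix of the geodesic flow. -/
noncomputable def Dt (t : ℝ) : SL(2, ℝ) :=
  ⟨!![Real.exp (t / 2), 0; 0, Real.exp (-(t / 2))], by
    rw [Matrix.det_fin_two_of, ← Real.exp_add]; simp⟩

theorem Dt_smul (t s : ℝ) : Dt t • vp s = vp (s + t) := by
  have e00 : Dt t 0 0 = Real.exp (t / 2) := rfl
  have e01 : Dt t 0 1 = 0 := rfl
  have e10 : Dt t 1 0 = 0 := rfl
  have e11 : Dt t 1 1 = Real.exp (-(t / 2)) := rfl
  apply UpperHalfPlane.ext_re_im
  · rw [smul_re, e00, e01, e10, vp_re, vp_re]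
    simp
  · rw [smul_im, e10, e11, vp_re, vp_im, vp_im]
    simp only [mul_zero, zero_mul, zero_add, zero_pow two_ne_zero, add_zero]
    rw [← Real.exp_nat_mul, ← Real.exp_sub]
    congr 1
    push_cast
    ring

theorem flow_geod (h : SL(2, ℝ)) (t : ℝ) : flow t (geod h) = geod (h * Dt t) := by
  apply Subtype.ext
  funext s
  rw [flow_apply, geod_apply, geod_apply, mul_smul, Dt_smul]

theorem cx_Dt_inv (t : ℝ) : cx (Dt t)⁻¹ =
    !![((Real.exp (-(t / 2)) : ℝ) : ℂ), 0; 0, ((Real.exp (t / 2) : ℝ) : ℂ)] := by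
  obtain ⟨h1, h2, h3, h4⟩ := sl_inv_apply (Dt t)
  have e00 : Dt t 0 0 = Real.exp (t / 2) := rfl
  have e01 : Dt t 0 1 = 0 := rfl
  have e10 : Dt t 1 0 = 0 := rfl
  have e11 : Dt t 1 1 = Real.exp (-(t / 2)) := rfl
  rw [e11] at h1
  rw [e01, neg_zero] at h2
  rw [e10, neg_zero] at h3
  rw [e00] at h4
  ext i j
  have : ∀ i j, cx (Dt t)⁻¹ i j = (((Dt t)⁻¹ i j : ℝ) : ℂ) := fun i j => rfl
  rw [this]
  fin_cases i <;> fin_cases j <;> simp [h1, h2, h3, h4]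

theorem E0_Dt (t : ℝ) : E0 * cx (Dt t)⁻¹ = ((Real.exp (-(t / 2)) : ℝ) : ℂ) • E0 := by
  rw [cx_Dt_inv]
  ext i j; fin_cases i <;> fin_cases j <;> simp [E0]

theorem E1_Dt (t : ℝ) : E1 * cx (Dt t)⁻¹ = ((Real.exp (t / 2) : ℝ) : ℂ) • E1 := by
  rw [cx_Dt_inv]
  ext i j; fin_cases i <;> fin_cases j <;> simp [E1]

theorem Dt_E1 (t : ℝ) : cx (Dt t) * E1 * cx (Dt t)⁻¹ = E1 := by
  have h : cx (Dt t) * E1 = ((Real.exp (-(t / 2)) : ℝ) : ℂ) • E1 := by
    have e00 : Dt t 0 0 = Real.exp (t / 2) := rfl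
    have e01 : Dt t 0 1 = 0 := rfl
    have e10 : Dt t 1 0 = 0 := rfl
    have e11 : Dt t 1 1 = Real.exp (-(t / 2)) := rfl
    ext i j
    rw [Matrix.mul_apply, Fin.sum_univ_two]
    have : ∀ i j, cx (Dt t) i j = ((Dt t i j : ℝ) : ℂ) := fun i j => rfl
    rw [this, this]
    fin_cases i <;> fin_cases j <;> simp [E1, e00, e01, e10, e11]
  rw [h, Matrix.smul_mul, E1_Dt, smul_smul, ← Complex.ofReal_mul, ← Real.exp_add]
  simp

/-- The projection of the frame `h`. -/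
noncomputable def Pf (h : SL(2, ℝ)) : Matrix (Fin d) (Fin d) ℂ := Blk e (cx h * E1 * cx h⁻¹) 0

/-- The seminorm `v ↦ ‖A v‖`. -/
noncomputable def sn (A : Matrix (Fin d) (Fin d) ℂ) : Seminorm ℂ (Fin d → ℂ) :=
  (normSeminorm ℂ (Fin d → ℂ)).comp A.mulVecLin

theorem sn_apply (A : Matrix (Fin d) (Fin d) ℂ) (v : Fin d → ℂ) : sn A v = ‖A *ᵥ v‖ := rfl

/-- The norm of the frame `h`. -/
noncomputable def Nf (h : SL(2, ℝ)) : Seminorm ℂ (Fin d → ℂ) :=
  sn (Blk e (E0 * cx h⁻¹) 0) + sn (Blk e (E1 * cx h⁻¹) 0) + sn (Blk e 0 1)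

theorem Nf_apply (h : SL(2, ℝ)) (v : Fin d → ℂ) : Nf e h v =
    ‖Blk e (E0 * cx h⁻¹) 0 *ᵥ v‖ + ‖Blk e (E1 * cx h⁻¹) 0 *ᵥ v‖ + ‖Blk e 0 1 *ᵥ v‖ := rfl

theorem blk_neg (X : Matrix (Fin 2) (Fin 2) ℂ) : Blk e (-X) 0 = -Blk e X 0 := by
  have := blk_smul e (-1) X 0
  rw [mul_zero] at this
  rw [← neg_one_smul ℂ X, ← this, neg_one_smul]

theorem Pf_neg (h : SL(2, ℝ)) : Pf e (-h) = Pf e h := by
  have h1 : cx (-h)⁻¹ = -cx h⁻¹ := by
    rw [← cx_neg]
    congr 1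
    rw [inv_eq_iff_mul_eq_one]
    simp
  rw [Pf, Pf, h1, cx_neg]
  congr 1
  simp

theorem Nf_neg (h : SL(2, ℝ)) : Nf e (-h) = Nf e h := by
  have h1 : cx (-h)⁻¹ = -cx h⁻¹ := by
    rw [← cx_neg]
    congr 1
    rw [inv_eq_iff_mul_eq_one]
    simp
  ext v
  rw [Nf_apply, Nf_apply, h1, mul_neg, mul_neg, blk_neg, blk_neg, Matrix.neg_mulVec,
    Matrix.neg_mulVec, norm_neg, norm_neg]

/-- A chosen frame. -/
noncomputable def fr (c : UT) : SL(2, ℝ) := (surjective_geod c).choose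

theorem geod_fr (c : UT) : geod (fr c) = c := (surjective_geod c).choose_spec

noncomputable def PP (c : UT) : Matrix (Fin d) (Fin d) ℂ := Pf e (fr c)
noncomputable def NN (c : UT) : Seminorm ℂ (Fin d → ℂ) := Nf e (fr c)

theorem PP_geod (h : SL(2, ℝ)) : PP e (geod h) = Pf e h := by
  rcases geod_eq (geod_fr (geod h)).symm with h1 | h1
  · rw [PP, h1]
  · rw [PP, h1, Pf_neg]

theorem NN_geod (h : SL(2, ℝ)) : NN e (geod h) = Nf e h := by
  rcases geod_eq (geod_fr (geod h)).symm with h1 | h1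
  · rw [NN, h1]
  · rw [NN, h1, Nf_neg]

theorem continuous_PP : Continuous (PP e) := by
  have hq : Topology.IsQuotientMap geod :=
    isProperMap_geod.isClosedMap.isQuotientMap continuous_geod surjective_geod
  rw [hq.continuous_iff]
  have h1 : PP e ∘ geod = fun h => Blk e (cx h * E1 * cx h⁻¹) 0 := by
    funext h
    exact PP_geod e h
  rw [h1]
  have h2 : Continuous fun h : SL(2, ℝ) => cx h * E1 * cx h⁻¹ :=
    (continuous_cx.matrix_mul continuous_const).matrix_mul (continuous_cx.comp continuous_inv)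
  exact (continuous_blk e).comp (h2.prodMk continuous_const)

theorem continuous_NN : Continuous fun p : UT × (Fin d → ℂ) => NN e p.1 p.2 := by
  have hp : IsProperMap (Prod.map geod (id : (Fin d → ℂ) → (Fin d → ℂ))) :=
    isProperMap_geod.prodMap isProperMap_id
  have hq : Topology.IsQuotientMap (Prod.map geod (id : (Fin d → ℂ) → (Fin d → ℂ))) :=
    hp.isClosedMap.isQuotientMap hp.continuous (surjective_geod.prodMap Function.surjective_id)
  rw [hq.continuous_iff]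
  have h1 : (fun p : UT × (Fin d → ℂ) => NN e p.1 p.2) ∘ (Prod.map geod id) =
      fun p : SL(2, ℝ) × (Fin d → ℂ) => ‖Blk e (E0 * cx p.1⁻¹) 0 *ᵥ p.2‖ +
        ‖Blk e (E1 * cx p.1⁻¹) 0 *ᵥ p.2‖ + ‖Blk e 0 1 *ᵥ p.2‖ := by
    funext p
    change NN e (geod p.1) p.2 = _
    rw [NN_geod, Nf_apply]
  rw [h1]
  have hc : Continuous fun p : SL(2, ℝ) × (Fin d → ℂ) => cx p.1⁻¹ :=
    continuous_cx.comp (continuous_inv.comp continuous_fst)
  have hb : ∀ E : Matrix (Fin 2) (Fin 2) ℂ, Continuous fun p : SL(2, ℝ) × (Fin d → ℂ) =>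
      Blk e (E * cx p.1⁻¹) 0 := fun E =>
    (continuous_blk e).comp ((continuous_const.matrix_mul hc).prodMk continuous_const)
  exact (((hb E0).matrix_mulVec continuous_snd).norm.add
    ((hb E1).matrix_mulVec continuous_snd).norm).add
    ((continuous_const.matrix_mulVec continuous_snd).norm)

/-- The rank of a projection is its trace. -/
theorem rank_eq_trace {P : Matrix (Fin d) (Fin d) ℂ} (hP : P * P = P) : (P.rank : ℂ) = P.trace := by
  have h1 : IsIdempotentElem (Matrix.toLin' P) := by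
    rw [IsIdempotentElem, Module.End.mul_eq_comp, ← Matrix.toLin'_mul, hP]
  have h2 := (LinearMap.IsIdempotentElem.isProj_range _ h1).trace
  rw [Matrix.trace_toLin'_eq] at h2
  rw [h2]
  rfl

theorem Pf_idem (h : SL(2, ℝ)) : Pf e h * Pf e h = Pf e h := by
  rw [Pf, blk_mul, mul_zero]
  congr 1
  calc cx h * E1 * cx h⁻¹ * (cx h * E1 * cx h⁻¹) = cx h * E1 * (cx h⁻¹ * cx h) * E1 * cx h⁻¹ := by
        simp only [mul_assoc]
    _ = cx h * E1 * cx h⁻¹ := by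
        rw [cx_inv_mul, mul_one, mul_assoc (cx h) E1 E1, E1_mul_E1]

theorem Pf_trace (h : SL(2, ℝ)) : (Pf e h).trace = m := by
  rw [Pf, blk_trace, Matrix.trace_mul_comm, ← mul_assoc, cx_inv_mul, one_mul]
  simp [E1, Matrix.trace_fin_two]

theorem Pf_rank (h : SL(2, ℝ)) : (Pf e h).rank = m := by
  have := rank_eq_trace (Pf_idem e h)
  rw [Pf_trace] at this
  exact_mod_cast this

theorem blkRep_apply (Γ : Subgroup SL(2, ℝ)) (g : Γ) : ((blkRep e Γ).1 g).1 = Blk e (cx g) 1 := rfl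

theorem act_geod {Γ : Subgroup SL(2, ℝ)} (g : Γ) (h : SL(2, ℝ)) :
    act g (geod h) = geod ((g : SL(2, ℝ)) * h) := by
  apply Subtype.ext
  funext s
  rw [act_apply, geod_apply, geod_apply, mul_smul]
  rfl

/-- The representation `m · std ⊕ n · trivial` is simple `m`-Anosov. -/
theorem blkRep_anosov (Γ : Subgroup SL(2, ℝ)) : IsSimpleAnosov m (blkRep e Γ) := by
  refine ⟨PP e, NN e, 1, 1 / 2, one_pos, by norm_num, (continuous_PP e).continuousOn, ?_, ?_, ?_,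
    (continuous_NN e).continuousOn, ?_, ?_, ?_⟩
  · intro c _
    obtain ⟨h, rfl⟩ := surjective_geod c
    rw [PP_geod]
    exact ⟨Pf_idem e h, Pf_rank e h⟩
  · intro c _ g
    obtain ⟨h, rfl⟩ := surjective_geod c
    rw [act_geod, PP_geod, PP_geod, blkRep_apply, Pf, Pf, blk_mul, blk_mul, mul_inv_rev, cx_mul, cx_mul]
    congr 1
    · calc cx g * cx h * E1 * (cx h⁻¹ * cx (g : SL(2, ℝ))⁻¹) * cx g
          = cx g * cx h * E1 * cx h⁻¹ * (cx (g : SL(2, ℝ))⁻¹ * cx g) := by simp only [mul_assoc]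
        _ = cx g * (cx h * E1 * cx h⁻¹) := by rw [cx_inv_mul, mul_one]; simp only [mul_assoc]
    · ring
  · intro c _ t
    obtain ⟨h, rfl⟩ := surjective_geod c
    rw [flow_geod, PP_geod, PP_geod, Pf, Pf, mul_inv_rev, cx_mul, cx_mul]
    congr 1
    calc cx h * cx (Dt t) * E1 * (cx (Dt t)⁻¹ * cx h⁻¹)
        = cx h * (cx (Dt t) * E1 * cx (Dt t)⁻¹) * cx h⁻¹ := by simp only [mul_assoc]
      _ = _ := by rw [Dt_E1]
  · intro c _ v hv
    obtain ⟨h, rfl⟩ := surjective_geod c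
    rw [NN_geod, Nf_apply] at hv
    have h1 := norm_nonneg (Blk e (E0 * cx h⁻¹) 0 *ᵥ v)
    have h2 := norm_nonneg (Blk e (E1 * cx h⁻¹) 0 *ᵥ v)
    have h3 := norm_nonneg (Blk e 0 1 *ᵥ v)
    have k1 : Blk e (E0 * cx h⁻¹) 0 *ᵥ v = 0 := norm_eq_zero.1 (by linarith)
    have k2 : Blk e (E1 * cx h⁻¹) 0 *ᵥ v = 0 := norm_eq_zero.1 (by linarith)
    have k3 : Blk e 0 1 *ᵥ v = 0 := norm_eq_zero.1 (by linarith)
    have k4 : Blk e (cx h⁻¹) 1 *ᵥ v = 0 := by
      have : Blk e (cx h⁻¹) 1 = Blk e (E0 * cx h⁻¹) 0 + Blk e (E1 * cx h⁻¹) 0 + Blk e 0 1 := by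
        rw [blk_add, blk_add, ← add_mul, E0_add_E1, one_mul, add_zero, zero_add, zero_add]
      rw [this, Matrix.add_mulVec, Matrix.add_mulVec, k1, k2, k3, add_zero, add_zero]
    have k5 : Blk e (cx h) 1 *ᵥ (Blk e (cx h⁻¹) 1 *ᵥ v) = v := by
      rw [Matrix.mulVec_mulVec, blk_mul, cx_mul_inv, one_mul, blk_one, Matrix.one_mulVec]
    rw [← k5, k4, Matrix.mulVec_zero]
  · intro c _ g v
    obtain ⟨h, rfl⟩ := surjective_geod c
    rw [act_geod, NN_geod, NN_geod, Nf_apply, Nf_apply, blkRep_apply, Matrix.mulVec_mulVec,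
      Matrix.mulVec_mulVec, Matrix.mulVec_mulVec, blk_mul, blk_mul, blk_mul, mul_inv_rev, cx_mul]
    have key : ∀ E : Matrix (Fin 2) (Fin 2) ℂ, E * (cx h⁻¹ * cx (g : SL(2, ℝ))⁻¹) * cx g =
        E * cx h⁻¹ := by
      intro E
      rw [mul_assoc, mul_assoc, cx_inv_mul, mul_one]
    rw [key, key, zero_mul, zero_mul, one_mul]
  · intro c _ v w hv hw t ht
    obtain ⟨h, rfl⟩ := surjective_geod c
    rw [PP_geod] at hv hw
    rw [flow_geod, NN_geod, NN_geod, Nf_apply, Nf_apply, Nf_apply, Nf_apply, mul_inv_rev, cx_mul]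
    -- the components of `v` and `w`
    have v0 : Blk e (E0 * cx h⁻¹) 0 *ᵥ v = 0 := by
      rw [← hv, Matrix.mulVec_mulVec, Pf, blk_mul]
      have : E0 * cx h⁻¹ * (cx h * E1 * cx h⁻¹) = 0 := by
        calc E0 * cx h⁻¹ * (cx h * E1 * cx h⁻¹) = E0 * (cx h⁻¹ * cx h) * E1 * cx h⁻¹ := by
              simp only [mul_assoc]
          _ = 0 := by rw [cx_inv_mul, mul_one, E0_mul_E1, zero_mul]
      rw [this, mul_zero, blk_zero, Matrix.zero_mulVec]
    have v2 : Blk e 0 1 *ᵥ v = 0 := by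
      rw [← hv, Matrix.mulVec_mulVec, Pf, blk_mul, zero_mul, mul_zero, blk_zero, Matrix.zero_mulVec]
    have w1 : Blk e (E1 * cx h⁻¹) 0 *ᵥ w = 0 := by
      have h1 : Blk e (E1 * cx h⁻¹) 0 = Blk e (E1 * cx h⁻¹) 0 * Pf e h := by
        rw [Pf, blk_mul, mul_zero]
        congr 1
        calc E1 * cx h⁻¹ = E1 * E1 * cx h⁻¹ := by rw [E1_mul_E1]
          _ = E1 * (cx h⁻¹ * cx h) * E1 * cx h⁻¹ := by rw [cx_inv_mul, mul_one]
          _ = _ := by simp only [mul_assoc]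
      rw [h1, ← Matrix.mulVec_mulVec, hw, Matrix.mulVec_zero]
    have e0 : Blk e (E0 * (cx (Dt t)⁻¹ * cx h⁻¹)) 0 =
        ((Real.exp (-(t / 2)) : ℝ) : ℂ) • Blk e (E0 * cx h⁻¹) 0 := by
      rw [← mul_assoc, E0_Dt, blk_smul, mul_zero, smul_mul_assoc]
    have e1 : Blk e (E1 * (cx (Dt t)⁻¹ * cx h⁻¹)) 0 =
        ((Real.exp (t / 2) : ℝ) : ℂ) • Blk e (E1 * cx h⁻¹) 0 := by
      rw [← mul_assoc, E1_Dt, blk_smul, mul_zero, smul_mul_assoc]
    rw [e0, e1]
    simp only [Matrix.smul_mulVec, v0, v2, w1, norm_zero, smul_zero, zero_add, add_zero, norm_smul,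
      Complex.norm_real, Real.norm_of_nonneg (Real.exp_pos _).le]
    set x := ‖Blk e (E0 * cx h⁻¹) 0 *ᵥ w‖
    set y := ‖Blk e 0 1 *ᵥ w‖
    set z := ‖Blk e (E1 * cx h⁻¹) 0 *ᵥ v‖
    have hx : 0 ≤ x := norm_nonneg _
    have hy : 0 ≤ y := norm_nonneg _
    have hz : 0 ≤ z := norm_nonneg _
    have e3 : Real.exp (-(1 / 2) * t) * Real.exp (t / 2) = 1 := by
      rw [← Real.exp_add]; simp; ring
    have e4 : Real.exp (-(t / 2)) ≤ 1 := Real.exp_le_one_iff.2 (by linarith)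
    calc (Real.exp (-(t / 2)) * x + y) * z ≤ (1 * x + y) * z := by
          refine mul_le_mul_of_nonneg_right ?_ hz
          have := mul_le_mul_of_nonneg_right e4 hx
          linarith
      _ = (Real.exp (-(1 / 2) * t) * Real.exp (t / 2)) * (z * (x + y)) := by rw [e3]; ring
      _ = 1 * Real.exp (-(1 / 2) * t) * (Real.exp (t / 2) * z * (x + y)) := by ring

end Pool.Agent.N512.SA
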