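import Pool.Agent.N512.SA.Domain

/-!
# Block matrices: the representation `m · std ⊕ n · trivial`
-/

set_option autoImplicit false

open scoped MatrixGroups UpperHalfPlane Matrix Topology Kronecker
open UpperHalfPlane

namespace Pool.Agent.N512.SA

open Pool.Agent.Y473.SA

variable {m n d : ℕ} (e : (Fin 2 × Fin m) ⊕ Fin n ≃ Fin d)

/-- The matrix with `m` blocks `X` and `n` diagonal entries `y`. -/
noncomputable def Blk (X : Matrix (Fin 2) (Fin 2) ℂ) (y : ℂ) : Matrix (Fin d) (Fin d) ℂ :=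
  Matrix.reindexAlgEquiv ℂ ℂ e
    (Matrix.fromBlocks (X ⊗ₖ (1 : Matrix (Fin m) (Fin m) ℂ)) 0 0 (y • (1 : Matrix (Fin n) (Fin n) ℂ)))

theorem blk_mul (X Y : Matrix (Fin 2) (Fin 2) ℂ) (x y : ℂ) :
    Blk e X x * Blk e Y y = Blk e (X * Y) (x * y) := by
  rw [Blk, Blk, Blk, ← map_mul, Matrix.fromBlocks_multiply]
  congr 1
  simp only [Matrix.mul_zero, Matrix.zero_mul, add_zero, zero_add]
  rw [← Matrix.mul_kronecker_mul, Matrix.one_mul, smul_mul_smul_comm, Matrix.one_mul]

theorem blk_add (X Y : Matrix (Fin 2) (Fin 2) ℂ) (x y : ℂ) :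
    Blk e X x + Blk e Y y = Blk e (X + Y) (x + y) := by
  rw [Blk, Blk, Blk, ← map_add, Matrix.fromBlocks_add]
  congr 1
  rw [Matrix.add_kronecker, add_smul, add_zero, add_zero]

theorem blk_smul (c : ℂ) (X : Matrix (Fin 2) (Fin 2) ℂ) (x : ℂ) :
    c • Blk e X x = Blk e (c • X) (c * x) := by
  rw [Blk, Blk, ← map_smul, Matrix.fromBlocks_smul]
  congr 1
  rw [Matrix.smul_kronecker, smul_smul, smul_zero, smul_zero]

theorem blk_one : Blk e 1 1 = 1 := by
  rw [Blk, Matrix.one_kronecker_one, one_smul, Matrix.fromBlocks_one, map_one]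

theorem blk_zero : Blk e 0 0 = 0 := by
  rw [Blk, Matrix.zero_kronecker, zero_smul, Matrix.fromBlocks_zero, map_zero]

theorem blk_star (X : Matrix (Fin 2) (Fin 2) ℂ) (x : ℂ) : (Blk e X x)ᴴ = Blk e Xᴴ (star x) := by
  rw [Blk, Blk, Matrix.coe_reindexAlgEquiv, Matrix.conjTranspose_reindex, Matrix.fromBlocks_conjTranspose,
    Matrix.conjTranspose_kronecker, Matrix.conjTranspose_smul]
  simp

theorem blk_trace (X : Matrix (Fin 2) (Fin 2) ℂ) (x : ℂ) :
    (Blk e X x).trace = m * X.trace + n * x := by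
  have h : ∀ A : Matrix ((Fin 2 × Fin m) ⊕ Fin n) ((Fin 2 × Fin m) ⊕ Fin n) ℂ,
      (Matrix.reindex e e A).trace = A.trace := by
    intro A
    simp only [Matrix.trace, Matrix.reindex_apply, Matrix.diag_apply, Matrix.submatrix_apply]
    exact Equiv.sum_comp e.symm (fun i => A i i)
  have h2 : ∀ (A : Matrix (Fin 2 × Fin m) (Fin 2 × Fin m) ℂ) (D : Matrix (Fin n) (Fin n) ℂ),
      (Matrix.fromBlocks A 0 0 D).trace = A.trace + D.trace := by
    intro A D
    simp [Matrix.trace, Fintype.sum_sum_type]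
  rw [Blk, Matrix.coe_reindexAlgEquiv, h, h2,
    Matrix.trace_kronecker, Matrix.trace_smul, Matrix.trace_one, Matrix.trace_one]
  simp
  ring

theorem blk_det (X : Matrix (Fin 2) (Fin 2) ℂ) (x : ℂ) : (Blk e X x).det = X.det ^ m * x ^ n := by
  rw [Blk, Matrix.coe_reindexAlgEquiv, Matrix.det_reindex_self, Matrix.det_fromBlocks_zero₂₁,
    Matrix.det_kronecker, Matrix.det_smul]
  simp

theorem continuous_blk : Continuous fun p : Matrix (Fin 2) (Fin 2) ℂ × ℂ => Blk e p.1 p.2 := by
  refine continuous_pi fun i => continuous_pi fun j => ?_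
  have h : ∀ p : Matrix (Fin 2) (Fin 2) ℂ × ℂ, Blk e p.1 p.2 i j =
      Matrix.fromBlocks (p.1 ⊗ₖ (1 : Matrix (Fin m) (Fin m) ℂ)) 0 0
        (p.2 • (1 : Matrix (Fin n) (Fin n) ℂ)) (e.symm i) (e.symm j) := fun p => rfl
  simp only [h]
  rcases e.symm i with i' | i' <;> rcases e.symm j with j' | j'
  · simp only [Matrix.fromBlocks_apply₁₁, Matrix.kroneckerMap_apply]
    have h1 : Continuous fun p : Matrix (Fin 2) (Fin 2) ℂ × ℂ => p.1 i'.1 j'.1 :=
      (continuous_apply_apply i'.1 j'.1).comp continuous_fst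
    exact h1.mul continuous_const
  · simp only [Matrix.fromBlocks_apply₁₂]
    exact continuous_const
  · simp only [Matrix.fromBlocks_apply₂₁]
    exact continuous_const
  · simp only [Matrix.fromBlocks_apply₂₂, Matrix.smul_apply]
    exact continuous_snd.smul continuous_const

/-- The complexification of a real matrix of determinant one. -/
noncomputable def cx (h : SL(2, ℝ)) : Matrix (Fin 2) (Fin 2) ℂ := h.1.map (algebraMap ℝ ℂ)

theorem cx_mul (g h : SL(2, ℝ)) : cx (g * h) = cx g * cx h := by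
  rw [cx, Matrix.SpecialLinearGroup.coe_mul, Matrix.map_mul]; rfl

theorem cx_one : cx 1 = 1 := by
  rw [cx, Matrix.SpecialLinearGroup.coe_one]
  exact Matrix.map_one _ (map_zero _) (map_one _)

theorem cx_inv_mul (h : SL(2, ℝ)) : cx h⁻¹ * cx h = 1 := by rw [← cx_mul, inv_mul_cancel, cx_one]
theorem cx_mul_inv (h : SL(2, ℝ)) : cx h * cx h⁻¹ = 1 := by rw [← cx_mul, mul_inv_cancel, cx_one]

theorem cx_neg (h : SL(2, ℝ)) : cx (-h) = -cx h := by
  ext i j
  simp [cx]

theorem cx_det (h : SL(2, ℝ)) : (cx h).det = 1 := by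
  rw [cx, ← RingHom.mapMatrix_apply, ← RingHom.map_det, h.det_coe, map_one]

theorem continuous_cx : Continuous cx := by
  refine continuous_pi fun i => continuous_pi fun j => ?_
  change Continuous fun h : SL(2, ℝ) => ((h i j : ℝ) : ℂ)
  exact Complex.continuous_ofReal.comp ((continuous_apply j).comp ((continuous_apply i).comp
    continuous_subtype_val))

/-- The representation `m · std ⊕ n · trivial` of `SL(2, ℝ)`. -/
noncomputable def R (h : SL(2, ℝ)) : SL(d, ℂ) :=
  ⟨Blk e (cx h) 1, by rw [blk_det, cx_det, one_pow, one_pow, one_mul]⟩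

theorem R_mul (g h : SL(2, ℝ)) : R e (g * h) = R e g * R e h := by
  apply Subtype.ext
  change Blk e (cx (g * h)) 1 = Blk e (cx g) 1 * Blk e (cx h) 1
  rw [blk_mul, cx_mul, one_mul]

variable (Γ : Subgroup SL(2, ℝ))

/-- The representation `m · std ⊕ n · trivial` of `Γ`. -/
noncomputable def blkRep : Rep Γ d := ⟨fun g => R e g, fun x y => R_mul e x y⟩

theorem continuous_geod : Continuous geod := by
  refine continuous_induced_rng.2 (continuous_pi fun t => ?_)
  change Continuous fun h : SL(2, ℝ) => h • vp t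
  exact continuous_id.smul continuous_const

theorem isProperMap_geod : IsProperMap geod := by
  refine isProperMap_of_comp_of_t2 (g := fun c : UT => c.1 0) continuous_geod (continuous_eval 0) ?_
  have h : (fun c : UT => c.1 0) ∘ geod = fun g : SL(2, ℝ) => g • UpperHalfPlane.I := by
    funext g
    change g • vp 0 = _
    rw [vp_zero]
  rw [h]
  exact UpperHalfPlane.isProperMap_smul_I

theorem surjective_geod : Function.Surjective geod := fun c => by
  obtain ⟨h, hh⟩ := exists_geod c
  exact ⟨h, hh.symm⟩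

/-- The frame of a line is unique up to sign. -/
theorem geod_eq {h h' : SL(2, ℝ)} (hh : geod h = geod h') : h' = h ∨ h' = -h := by
  have h1 : ∀ t, (h⁻¹ * h') • vp t = vp (t + 0) := by
    intro t
    have := congrArg (fun c : UT => c.1 t) hh
    simp only [geod_apply] at this
    rw [mul_smul, ← this, inv_smul_smul, add_zero]
  obtain ⟨lam, h2, h00, h11, h01, h10⟩ := diag_of_vp h1
  rw [Real.exp_zero] at h2
  have h3 : lam = 1 ∨ lam = -1 := sq_eq_one_iff.1 h2
  have key : ∀ s : ℝ, lam = s → s⁻¹ = s → (h⁻¹ * h').1 = s • (1 : Matrix (Fin 2) (Fin 2) ℝ) := by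
    intro s hs hss
    ext i j
    fin_cases i <;> fin_cases j
    · simpa [hs] using h00
    · simpa using h01
    · simpa using h10
    · simpa [hs, hss] using h11
  rcases h3 with h3 | h3
  · left
    have h4 : h⁻¹ * h' = 1 := by
      apply Subtype.ext
      rw [key 1 h3 (by norm_num), one_smul]
      rfl
    rw [inv_mul_eq_one] at h4
    exact h4.symm
  · right
    have h4 : h⁻¹ * h' = -1 := by
      apply Subtype.ext
      rw [key (-1) h3 (by norm_num)]
      simp
    rw [inv_mul_eq_iff_eq_mul] at h4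
    rw [h4, mul_neg, mul_one]

end Pool.Agent.N512.SA
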