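import Pool.Agent.N512.SA.Mat

/-!
# Domination along a perturbed sequence of matrices
-/

set_option autoImplicit false

open scoped Matrix MatrixGroups
open Matrix

namespace Pool.Agent.N512.SA

variable {d : ℕ}

/-- One step of the cone argument. -/
theorem cone_step {p q ph qh p' q' δ ε M : ℝ} (_hq : 0 ≤ q) (hp : 0 < p) (hqp : q ≤ p)
    (hM : 0 < M) (hε : 0 ≤ ε) (hδ : δ ≤ 1 / 8) (hδ0 : 0 ≤ δ) (hεM : ε * M ≤ 1 / 8) (h1 : p ≤ M * ph)
    (h2 : qh * p ≤ δ * (ph * q)) (h3 : |p' - ph| ≤ ε * p) (h4 : |q' - qh| ≤ ε * p) :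
    q' ≤ p' ∧ ph ≤ 2 * p' ∧ 0 < p' := by
  have hph : 0 < ph := by
    by_contra h
    push Not at h
    have : M * ph ≤ 0 := mul_nonpos_of_nonneg_of_nonpos hM.le h
    linarith
  have h5 : ε * p ≤ 1 / 8 * ph := by
    calc ε * p ≤ ε * (M * ph) := mul_le_mul_of_nonneg_left h1 hε
      _ = (ε * M) * ph := by ring
      _ ≤ 1 / 8 * ph := mul_le_mul_of_nonneg_right hεM hph.le
  have h6 : qh ≤ 1 / 8 * ph := by
    have : qh * p ≤ (1 / 8 * ph) * p := by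
      calc qh * p ≤ δ * (ph * q) := h2
        _ ≤ δ * (ph * p) := mul_le_mul_of_nonneg_left (mul_le_mul_of_nonneg_left hqp hph.le) hδ0
        _ ≤ 1 / 8 * (ph * p) := mul_le_mul_of_nonneg_right hδ (mul_nonneg hph.le hp.le)
        _ = (1 / 8 * ph) * p := by ring
    exact le_of_mul_le_mul_right this hp
  rw [abs_le] at h3 h4
  refine ⟨by linarith, by linarith, by linarith⟩

/-- One step of the domination. -/
theorem dom_step {pv pvh pv' pw qw qwh qw' δ ε M : ℝ} (hpv : 0 < pv) (hqw : 0 ≤ qw)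
    (hpq : pw ≤ qw) (hM : 0 < M) (hε : 0 ≤ ε) (hδ : δ ≤ 1 / 8) (hεM : ε * M ≤ 1 / 8)
    (h1 : pv ≤ M * pvh) (h2 : qwh * pv ≤ δ * (pvh * qw)) (h3 : pvh ≤ 2 * pv')
    (h4 : |qw' - qwh| ≤ ε * max pw qw) :
    qw' * pv ≤ 1 / 2 * (pv' * qw) := by
  have hph : 0 < pvh := by
    by_contra h
    push Not at h
    have : M * pvh ≤ 0 := mul_nonpos_of_nonneg_of_nonpos hM.le h
    linarith
  rw [max_eq_right hpq, abs_le] at h4
  have h5 : ε * qw * pv ≤ 1 / 8 * (pvh * qw) := by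
    calc ε * qw * pv ≤ ε * qw * (M * pvh) := mul_le_mul_of_nonneg_left h1 (mul_nonneg hε hqw)
      _ = (ε * M) * (pvh * qw) := by ring
      _ ≤ 1 / 8 * (pvh * qw) := mul_le_mul_of_nonneg_right hεM (mul_nonneg hph.le hqw)
  have h6 : δ * (pvh * qw) ≤ 1 / 8 * (pvh * qw) :=
    mul_le_mul_of_nonneg_right hδ (mul_nonneg hph.le hqw)
  have h7 : qw' * pv ≤ (qwh + ε * qw) * pv := mul_le_mul_of_nonneg_right (by linarith) hpv.le
  have h8 : pvh * qw ≤ 2 * pv' * qw := mul_le_mul_of_nonneg_right h3 hqw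
  nlinarith

/-- The domination along a perturbed sequence. -/
theorem chain {p q : ℕ → (Fin d → ℂ) → ℝ} {A A' : ℕ → Matrix (Fin d) (Fin d) ℂ} {M δ ε : ℝ}
    (hp0 : ∀ i u, 0 ≤ p i u) (hq0 : ∀ i u, 0 ≤ q i u) (hz : ∀ i u, p i u = 0 → q i u = 0 → u = 0)
    (hM : 0 < M) (hε : 0 ≤ ε) (hδ : δ ≤ 1 / 8) (hδ0 : 0 ≤ δ) (hεM : ε * M ≤ 1 / 8)
    (H1 : ∀ i u, p i u ≤ M * p (i + 1) (A i *ᵥ u))
    (H2 : ∀ i v w, q (i + 1) (A i *ᵥ w) * p i v ≤ δ * (p (i + 1) (A i *ᵥ v) * q i w))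
    (H3 : ∀ i u, |p (i + 1) (A' i *ᵥ u) - p (i + 1) (A i *ᵥ u)| ≤ ε * max (p i u) (q i u))
    (H4 : ∀ i u, |q (i + 1) (A' i *ᵥ u) - q (i + 1) (A i *ᵥ u)| ≤ ε * max (p i u) (q i u))
    {v w : ℕ → (Fin d → ℂ)} (hv : ∀ i, v (i + 1) = A' i *ᵥ v i) (hw : ∀ i, w (i + 1) = A' i *ᵥ w i)
    (hv0 : q 0 (v 0) = 0) (hv1 : v 0 ≠ 0) {N : ℕ} (hwN : p N (w N) = 0) (hwne : ∀ i, w i ≠ 0) :
    q N (w N) * p 0 (v 0) * 2 ^ N ≤ p N (v N) * q 0 (w 0) := by
  -- invariance of the cone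
  have inv : ∀ (x : ℕ → (Fin d → ℂ)), (∀ i, x (i + 1) = A' i *ᵥ x i) → ∀ i,
      q i (x i) ≤ p i (x i) → 0 < p i (x i) →
      (q (i + 1) (x (i + 1)) ≤ p (i + 1) (x (i + 1)) ∧ p (i + 1) (A i *ᵥ x i) ≤
        2 * p (i + 1) (x (i + 1)) ∧ 0 < p (i + 1) (x (i + 1))) := by
    intro x hx i h1 h2
    have h3 := H3 i (x i)
    have h4 := H4 i (x i)
    rw [max_eq_left h1] at h3 h4
    rw [hx i]
    exact cone_step (hq0 _ _) h2 h1 hM hε hδ hδ0 hεM (H1 i _) (H2 i _ _) h3 h4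
  have hvc : ∀ i, q i (v i) ≤ p i (v i) ∧ 0 < p i (v i) := by
    intro i
    induction i with
    | zero =>
      have : 0 < p 0 (v 0) := lt_of_le_of_ne (hp0 _ _) fun h => hv1 (hz _ _ h.symm hv0)
      exact ⟨by rw [hv0]; exact this.le, this⟩
    | succ i ih =>
      obtain ⟨h1, -, h2⟩ := inv v hv i ih.1 ih.2
      exact ⟨h1, h2⟩
  have hwc : ∀ i ≤ N, p i (w i) < q i (w i) := by
    intro i hi
    by_contra hcon
    push Not at hcon
    have hpos : 0 < p i (w i) := by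
      refine lt_of_le_of_ne (hp0 _ _) fun h => hwne i (hz _ _ h.symm ?_)
      rw [← h] at hcon
      exact le_antisymm hcon (hq0 _ _)
    have : ∀ j, q (i + j) (w (i + j)) ≤ p (i + j) (w (i + j)) ∧ 0 < p (i + j) (w (i + j)) := by
      intro j
      induction j with
      | zero => exact ⟨hcon, hpos⟩
      | succ j ih =>
        obtain ⟨h1, -, h2⟩ := inv w hw (i + j) ih.1 ih.2
        exact ⟨h1, h2⟩
    have h2 := (this (N - i)).2
    rw [Nat.add_sub_cancel' hi, hwN] at h2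
    exact lt_irrefl _ h2
  have main : ∀ i ≤ N, q i (w i) * p 0 (v 0) * 2 ^ i ≤ p i (v i) * q 0 (w 0) := by
    intro i
    induction i with
    | zero => intro _; rw [pow_zero, mul_one, mul_comm]
    | succ i ih =>
      intro hi
      have ih' := ih (by omega)
      obtain ⟨c1, c2⟩ := hvc i
      obtain ⟨-, h3, -⟩ := inv v hv i c1 c2
      have h5 := dom_step (pw := p i (w i)) (qw := q i (w i)) (qw' := q (i + 1) (w (i + 1))) c2
        (hq0 _ _) (hwc i (by omega)).le hM hε hδ hεM (H1 i (v i)) (H2 i (v i) (w i)) h3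
        (by rw [hw i]; exact H4 i (w i))
      have h6 : 0 ≤ p 0 (v 0) := hp0 _ _
      have h7 : 0 ≤ p (i + 1) (v (i + 1)) := hp0 _ _
      have h8 : (q (i + 1) (w (i + 1)) * p 0 (v 0) * 2 ^ (i + 1)) * p i (v i) ≤
          (p (i + 1) (v (i + 1)) * q 0 (w 0)) * p i (v i) := by
        calc (q (i + 1) (w (i + 1)) * p 0 (v 0) * 2 ^ (i + 1)) * p i (v i)
            = (q (i + 1) (w (i + 1)) * p i (v i)) * (p 0 (v 0) * 2 ^ (i + 1)) := by ring
          _ ≤ (1 / 2 * (p (i + 1) (v (i + 1)) * q i (w i))) * (p 0 (v 0) * 2 ^ (i + 1)) :=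
              mul_le_mul_of_nonneg_right h5 (by positivity)
          _ = p (i + 1) (v (i + 1)) * (q i (w i) * p 0 (v 0) * 2 ^ i) := by ring
          _ ≤ p (i + 1) (v (i + 1)) * (p i (v i) * q 0 (w 0)) := mul_le_mul_of_nonneg_left ih' h7
          _ = _ := by ring
      exact le_of_mul_le_mul_right h8 c2
  exact main N le_rfl

end Pool.Agent.N512.SA
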