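import Pool.Agent.N512.SA.Anosov

/-!
# Complete reducibility
-/

set_option autoImplicit false

open scoped MatrixGroups UpperHalfPlane Matrix Topology Kronecker
open UpperHalfPlane

namespace Pool.Agent.N512.SA

open Pool.Agent.Y473.SA

variable {m n d : ℕ} (e : (Fin 2 × Fin m) ⊕ Fin n ≃ Fin d)

/-- Orthogonal complements of subspaces invariant under a self-adjoint set of matrices. -/
theorem compl_of_star {W : Submodule ℂ (Fin d → ℂ)} (S : Set (Matrix (Fin d) (Fin d) ℂ))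
    (hS : ∀ A ∈ S, Aᴴ ∈ S) (hW : ∀ A ∈ S, ∀ w ∈ W, A *ᵥ w ∈ W) :
    ∃ W' : Submodule ℂ (Fin d → ℂ), (∀ A ∈ S, ∀ w ∈ W', A *ᵥ w ∈ W') ∧ IsCompl W W' := by
  let L : EuclideanSpace ℂ (Fin d) ≃ₗ[ℂ] (Fin d → ℂ) := WithLp.linearEquiv 2 ℂ (Fin d → ℂ)
  let W₂ : Submodule ℂ (EuclideanSpace ℂ (Fin d)) := W.comap (L : EuclideanSpace ℂ (Fin d) →ₗ[ℂ] _)
  refine ⟨W₂ᗮ.map (L : EuclideanSpace ℂ (Fin d) →ₗ[ℂ] _), ?_, ?_⟩
  · rintro A hA _ ⟨v, hv, rfl⟩
    refine ⟨L.symm (A *ᵥ L v), ?_, by simp⟩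
    rw [SetLike.mem_coe, Submodule.mem_orthogonal] at hv ⊢
    intro w hw
    have h1 : L.symm (Aᴴ *ᵥ L w) ∈ W₂ := by
      change L (L.symm (Aᴴ *ᵥ L w)) ∈ W
      rw [LinearEquiv.apply_symm_apply]
      exact hW _ (hS A hA) _ hw
    have h2 := hv _ h1
    have key : ∀ x y : EuclideanSpace ℂ (Fin d), inner ℂ x y = L y ⬝ᵥ star (L x) := by
      intro x y
      rfl
    rw [key] at h2 ⊢
    rw [LinearEquiv.apply_symm_apply] at h2 ⊢
    rw [Matrix.star_mulVec, Matrix.conjTranspose_conjTranspose, dotProduct_comm,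
      ← Matrix.dotProduct_mulVec] at h2
    rw [dotProduct_comm]
    exact h2
  · have h1 : IsCompl W₂ W₂ᗮ := Submodule.isCompl_orthogonal _
    have h2 := (Submodule.orderIsoMapComap L).isCompl h1
    have h3 : Submodule.map (L : EuclideanSpace ℂ (Fin d) →ₗ[ℂ] (Fin d → ℂ)) W₂ = W := by
      rw [Submodule.map_comap_eq_of_surjective L.surjective]
    rw [← h3]
    exact h2

/-- Two elements of `Γ` in a good position: `a` is diagonal and hyperbolic, both off-diagonal entries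
of `b` are different from zero. -/
theorem exists_pair {Γ : Subgroup SL(2, ℝ)} (hΓ : IsClosedSurface Γ) :
    ∃ (a b : Γ) (p : SL(2, ℝ)) (lam : ℝ), lam ≠ 0 ∧ lam ≠ 1 ∧ lam ≠ lam⁻¹ ∧
      (p⁻¹ * (a : SL(2, ℝ)) * p) 0 0 = lam ∧ (p⁻¹ * (a : SL(2, ℝ)) * p) 1 1 = lam⁻¹ ∧
      (p⁻¹ * (a : SL(2, ℝ)) * p) 0 1 = 0 ∧ (p⁻¹ * (a : SL(2, ℝ)) * p) 1 0 = 0 ∧
      (p⁻¹ * (b : SL(2, ℝ)) * p) 0 1 ≠ 0 ∧ (p⁻¹ * (b : SL(2, ℝ)) * p) 1 0 ≠ 0 := by
  obtain ⟨a, b, hab⟩ := hΓ.exists_not_comm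
  have ha : a ≠ 1 := by
    rintro rfl
    apply hab
    group
  obtain ⟨ε, hε, hgap1, hgap2⟩ := hΓ.trace_gap
  obtain ⟨p, lam, h1, h2, h3, h00, h11, h01, h10⟩ := hgap2 a ha
  have hs : 0 < 2 * Real.sinh (ε / 2) := by
    have : 0 < Real.sinh (ε / 2) := Real.sinh_pos_iff.2 (by linarith)
    linarith
  have hne : lam ≠ lam⁻¹ := by
    intro h0
    rw [← h0, sub_self, abs_zero] at h1
    linarith
  have hl0 : lam ≠ 0 := by
    rintro rfl
    exact hne (by simp)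
  have hl1 : lam ≠ 1 := by
    rintro rfl
    exact hne (by simp)
  set A := p⁻¹ * (a : SL(2, ℝ)) * p with hA
  set B := p⁻¹ * (b : SL(2, ℝ)) * p with hB
  have hcomm : A * B * A⁻¹ * B⁻¹ = p⁻¹ * ((a * b * a⁻¹ * b⁻¹ : Γ) : SL(2, ℝ)) * p := by
    rw [hA, hB]
    simp only [Subgroup.coe_mul, Subgroup.coe_inv]
    group
  have htr : 2 < |tr (A * B * A⁻¹ * B⁻¹)| := by
    rw [hcomm, tr_conj]
    have h4 := hgap1 _ hab
    have h5 : 1 < Real.cosh (ε / 2) := Real.one_lt_cosh.2 (by linarith)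
    linarith
  have h4 := tr_comm_diag hl0 h00 h11 h01 h10 (B := B)
  have hprod : B 0 1 * B 1 0 ≠ 0 := by
    intro h0
    rw [h0, neg_zero, zero_mul] at h4
    have h5 : tr (A * B * A⁻¹ * B⁻¹) = 2 := by linarith
    rw [h5, abs_of_pos (by norm_num : (0 : ℝ) < 2)] at htr
    exact lt_irrefl _ htr
  exact ⟨a, b, p, lam, hl0, hl1, hne, h00, h11, h01, h10, left_ne_zero_of_mul hprod,
    right_ne_zero_of_mul hprod⟩

theorem cx_apply (h : SL(2, ℝ)) (i j : Fin 2) : cx h i j = ((h i j : ℝ) : ℂ) := rfl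

/-- The representation `m · std ⊕ n · trivial` is completely reducible. -/
theorem blkRep_cr {Γ : Subgroup SL(2, ℝ)} (hΓ : IsClosedSurface Γ) :
    IsCompletelyReducible (blkRep e Γ) := by
  intro W hW
  obtain ⟨a, b, p, lam, hl0, hl1, hne, h00, h11, h01, h10, b01, b10⟩ := exists_pair hΓ
  set A := p⁻¹ * (a : SL(2, ℝ)) * p with hA
  set B := p⁻¹ * (b : SL(2, ℝ)) * p with hB
  -- the matrices preserving `W`
  let Q : Matrix (Fin 2) (Fin 2) ℂ → ℂ → Prop := fun X x => ∀ w ∈ W, Blk e X x *ᵥ w ∈ W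
  have Qadd : ∀ {X Y x y}, Q X x → Q Y y → Q (X + Y) (x + y) := by
    intro X Y x y h1 h2 w hw
    rw [← blk_add, Matrix.add_mulVec]
    exact W.add_mem (h1 w hw) (h2 w hw)
  have Qmul : ∀ {X Y x y}, Q X x → Q Y y → Q (X * Y) (x * y) := by
    intro X Y x y h1 h2 w hw
    rw [← blk_mul, ← Matrix.mulVec_mulVec]
    exact h1 _ (h2 w hw)
  have Qsmul : ∀ {X x} (c : ℂ), Q X x → Q (c • X) (c * x) := by
    intro X x c h1 w hw
    rw [← blk_smul, Matrix.smul_mulVec]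
    exact W.smul_mem _ (h1 w hw)
  have Qone : Q 1 1 := by
    intro w hw
    rw [blk_one, Matrix.one_mulVec]
    exact hw
  have Qa : Q (cx a) 1 := fun w hw => hW a w hw
  have Qb : Q (cx b) 1 := fun w hw => hW b w hw
  have lamC : (lam : ℂ) ≠ 0 := by exact_mod_cast hl0
  have hAm : cx A = !![(lam : ℂ), 0; 0, (lam : ℂ)⁻¹] := by
    ext i j
    rw [cx_apply]
    fin_cases i <;> fin_cases j <;> simp [h00, h11, h01, h10]
  have hacx : cx a = cx p * cx A * cx p⁻¹ := by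
    rw [hA, ← cx_mul, ← cx_mul]
    congr 1
    group
  have hbcx : cx b = cx p * cx B * cx p⁻¹ := by
    rw [hB, ← cx_mul, ← cx_mul]
    congr 1
    group
  -- the spectral projections
  have conj_mul : ∀ X Y : Matrix (Fin 2) (Fin 2) ℂ, (cx p * X * cx p⁻¹) * (cx p * Y * cx p⁻¹) =
      cx p * (X * Y) * cx p⁻¹ := by
    intro X Y
    calc (cx p * X * cx p⁻¹) * (cx p * Y * cx p⁻¹) = cx p * X * (cx p⁻¹ * cx p) * Y * cx p⁻¹ := by
          simp only [mul_assoc]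
      _ = _ := by rw [cx_inv_mul, mul_one]; simp only [mul_assoc]
  have conj_sub : ∀ (X : Matrix (Fin 2) (Fin 2) ℂ) (c : ℂ), cx p * X * cx p⁻¹ + c • 1 =
      cx p * (X + c • 1) * cx p⁻¹ := by
    intro X c
    rw [mul_add, add_mul, Matrix.mul_smul, Matrix.smul_mul, mul_one, cx_mul_inv]
  have hshift : ∀ c : ℂ, Q (cx p * (cx A + c • 1) * cx p⁻¹) (1 + c) := by
    intro c
    have h1 := Qadd Qa (Qsmul c Qone)
    rwa [hacx, conj_sub, mul_one] at h1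
  have scale : ∀ {X : Matrix (Fin 2) (Fin 2) ℂ} {c : ℂ}, c ≠ 0 → Q (cx p * (c • X) * cx p⁻¹) 0 →
      Q (cx p * X * cx p⁻¹) 0 := by
    intro X c hc h1
    have h2 := Qsmul c⁻¹ h1
    rwa [mul_zero, Matrix.mul_smul, Matrix.smul_mul, smul_smul, inv_mul_cancel₀ hc, one_smul] at h2
  have hl1C : (lam : ℂ) - 1 ≠ 0 := by
    rw [sub_ne_zero]; exact_mod_cast hl1
  have hneC : (lam : ℂ) - (lam : ℂ)⁻¹ ≠ 0 := by
    rw [sub_ne_zero]; exact_mod_cast hne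
  have hl1C' : (lam : ℂ)⁻¹ - 1 ≠ 0 := by
    rw [sub_ne_zero]
    intro h
    rw [inv_eq_one] at h
    exact hl1C (by rw [h]; ring)
  have QE0 : Q (cx p * E0 * cx p⁻¹) 0 := by
    apply scale (c := ((lam : ℂ) - (lam : ℂ)⁻¹) * ((lam : ℂ) - 1)) (mul_ne_zero hneC hl1C)
    have h1 := Qmul (hshift (-(lam : ℂ)⁻¹)) (hshift (-1))
    rw [conj_mul] at h1
    have h2 : (cx A + (-(lam : ℂ)⁻¹) • 1) * (cx A + (-1 : ℂ) • 1) =
        (((lam : ℂ) - (lam : ℂ)⁻¹) * ((lam : ℂ) - 1)) • E0 := by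
      rw [hAm]
      ext i j
      fin_cases i <;> fin_cases j <;> simp [E0, Matrix.mul_apply, Fin.sum_univ_two] <;> ring
    rw [h2] at h1
    have h3 : (1 + -(lam : ℂ)⁻¹) * (1 + -1) = 0 := by ring
    rwa [h3] at h1
  have QE1 : Q (cx p * E1 * cx p⁻¹) 0 := by
    apply scale (c := ((lam : ℂ)⁻¹ - (lam : ℂ)) * ((lam : ℂ)⁻¹ - 1))
      (mul_ne_zero (by rw [← neg_sub]; exact neg_ne_zero.2 hneC) hl1C')
    have h1 := Qmul (hshift (-(lam : ℂ))) (hshift (-1))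
    rw [conj_mul] at h1
    have h2 : (cx A + (-(lam : ℂ)) • 1) * (cx A + (-1 : ℂ) • 1) =
        (((lam : ℂ)⁻¹ - (lam : ℂ)) * ((lam : ℂ)⁻¹ - 1)) • E1 := by
      rw [hAm]
      ext i j
      fin_cases i <;> fin_cases j <;> simp [E1, Matrix.mul_apply, Fin.sum_univ_two] <;> ring
    rw [h2] at h1
    have h3 : (1 + -(lam : ℂ)) * (1 + -1) = 0 := by ring
    rwa [h3] at h1
  have Q2 : Q 0 1 := by
    have h1 := Qadd Qone (Qsmul (-1) (Qadd QE0 QE1))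
    rw [← add_mul, ← mul_add, E0_add_E1, mul_one, cx_mul_inv] at h1
    have h2 : (1 : Matrix (Fin 2) (Fin 2) ℂ) + (-1 : ℂ) • 1 = 0 := by
      rw [neg_one_smul, add_neg_cancel]
    rw [h2] at h1
    simpa using h1
  have hBm : cx B = !![(B 0 0 : ℂ), (B 0 1 : ℂ); (B 1 0 : ℂ), (B 1 1 : ℂ)] :=
    Matrix.eta_fin_two _
  let E01 : Matrix (Fin 2) (Fin 2) ℂ := !![0, 1; 0, 0]
  let E10 : Matrix (Fin 2) (Fin 2) ℂ := !![0, 0; 1, 0]
  have QE01 : Q (cx p * E01 * cx p⁻¹) 0 := by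
    apply scale (c := (B 0 1 : ℂ)) (by exact_mod_cast b01)
    have h1 := Qmul (Qmul QE0 Qb) QE1
    rw [hbcx, conj_mul, conj_mul, zero_mul, zero_mul] at h1
    have h2 : E0 * cx B * E1 = (B 0 1 : ℂ) • E01 := by
      rw [hBm]
      ext i j
      fin_cases i <;> fin_cases j <;>
        simp [E0, E1, E01, Matrix.mul_apply, Fin.sum_univ_two]
    rwa [h2] at h1
  have QE10 : Q (cx p * E10 * cx p⁻¹) 0 := by
    apply scale (c := (B 1 0 : ℂ)) (by exact_mod_cast b10)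
    have h1 := Qmul (Qmul QE1 Qb) QE0
    rw [hbcx, conj_mul, conj_mul, zero_mul, zero_mul] at h1
    have h2 : E1 * cx B * E0 = (B 1 0 : ℂ) • E10 := by
      rw [hBm]
      ext i j
      fin_cases i <;> fin_cases j <;>
        simp [E0, E1, E10, Matrix.mul_apply, Fin.sum_univ_two]
    rwa [h2] at h1
  have QX0 : ∀ X, Q X 0 := by
    intro X
    set Y := cx p⁻¹ * X * cx p with hY
    have hX : X = cx p * Y * cx p⁻¹ := by
      calc X = (cx p * cx p⁻¹) * X * (cx p * cx p⁻¹) := by rw [cx_mul_inv, one_mul, mul_one]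
        _ = _ := by rw [hY]; simp only [mul_assoc]
    have hY2 : Y = (Y 0 0) • E0 + (Y 0 1) • E01 + (Y 1 0) • E10 + (Y 1 1) • E1 := by
      ext i j
      fin_cases i <;> fin_cases j <;> simp [E0, E1, E01, E10]
    have h1 := Qadd (Qadd (Qadd (Qsmul (Y 0 0) QE0) (Qsmul (Y 0 1) QE01)) (Qsmul (Y 1 0) QE10))
      (Qsmul (Y 1 1) QE1)
    rw [hX, hY2]
    simp only [mul_zero, add_zero] at h1
    simpa only [mul_add, add_mul, Matrix.mul_smul, Matrix.smul_mul] using h1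
  have Qall : ∀ X x, Q X x := by
    intro X x
    have h1 := Qadd (QX0 X) (Qsmul x Q2)
    simpa using h1
  obtain ⟨W', h1, h2⟩ := compl_of_star (W := W) {A | ∃ X x, A = Blk e X x}
    (by
      rintro _ ⟨X, x, rfl⟩
      exact ⟨Xᴴ, star x, blk_star e X x⟩)
    (by
      rintro _ ⟨X, x, rfl⟩ w hw
      exact Qall X x w hw)
  exact ⟨W', fun g w hw => h1 _ ⟨cx g, 1, rfl⟩ w hw, h2⟩

end Pool.Agent.N512.SA
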