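import Pool.Agent.N512.SA.Growth

/-!
# A domain of discontinuity containing all the simple Anosov domains
-/

set_option autoImplicit false

open scoped MatrixGroups UpperHalfPlane Matrix Topology
open UpperHalfPlane

namespace Pool.Agent.N512.SA

open Pool.Agent.Y473.SA

variable {Γ : Subgroup SL(2, ℝ)} {d : ℕ}

/-- The trace and the translation length. -/
theorem tr_sq_of_axis {g : Γ} {c : UT} {l : ℝ} (hl : 0 < l) (h : act g c = flow l c) :
    Real.exp l ≤ tr g ^ 2 ∧ tr g ^ 2 ≤ 4 * Real.exp l := by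
  obtain ⟨p, rfl⟩ := exists_geod c
  obtain ⟨lam, h1, h00, h11, -, -⟩ := diag_of_axis h
  have htr : tr g = lam + lam⁻¹ := by rw [← tr_conj p, tr_eq, h00, h11]
  have h0 : lam ≠ 0 := by
    rintro rfl
    rw [zero_pow two_ne_zero] at h1
    exact (Real.exp_pos _).ne h1
  have e5 : lam * lam⁻¹ = 1 := mul_inv_cancel₀ h0
  have e6 : tr g ^ 2 = Real.exp l + 2 + (lam⁻¹) ^ 2 := by
    rw [htr, ← h1]
    linear_combination 2 * e5
  have e7 : (lam⁻¹) ^ 2 ≤ 1 := by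
    rw [inv_pow, h1]
    exact inv_le_one_of_one_le₀ (Real.one_le_exp hl.le)
  have e8 : 1 ≤ Real.exp l := Real.one_le_exp hl.le
  have e9 := sq_nonneg lam⁻¹
  constructor <;> linarith

/-- Automorphisms map bounded sets of traces to bounded sets of traces. -/
theorem tr_aut_bound (hΓ : IsClosedSurface Γ) (φ : MulAut Γ) (B : ℝ) :
    ∃ B', ∀ g : Γ, |tr g| ≤ B → |tr (φ g)| ≤ B' := by
  obtain ⟨r, hr0, hr⟩ := hΓ.exists_radius
  obtain ⟨B', hB'⟩ := ((hΓ.finite_disp r (B ^ 2)).image fun g => |tr (φ g)|).bddAbove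
  refine ⟨max B' |tr (1 : SL(2, ℝ))|, fun g hg => ?_⟩
  by_cases h1 : g = 1
  · rw [h1, map_one]
    exact le_max_right _ _
  refine le_trans ?_ (le_max_left _ _)
  obtain ⟨c, l, hl, hc⟩ := hΓ.exists_axis h1
  obtain ⟨h, hh⟩ := hr (c.1 0)
  have h2 : h * g * h⁻¹ ∈ {g : Γ | ∃ z, dist I z ≤ r ∧ dist z (g • z) ≤ B ^ 2} := by
    refine ⟨h • c.1 0, hh, ?_⟩
    rw [mul_smul, mul_smul, inv_smul_smul, dist_smul, dist_axis hl hc]
    have h3 := (tr_sq_of_axis hl hc).1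
    have h4 := Real.add_one_le_exp l
    have h5 : tr g ^ 2 ≤ B ^ 2 := by
      rw [← sq_abs]
      exact pow_le_pow_left₀ (abs_nonneg _) hg 2
    linarith
  have h3 := hB' ⟨_, h2, rfl⟩
  have h4 : tr (φ (h * g * h⁻¹)) = tr (φ g) := by
    have := tr_conj ((φ h)⁻¹ : Γ) (φ g : Γ)
    rw [← this]
    simp [map_mul]
  simp only [h4] at h3
  exact h3

/-- An exponential lower bound and an exponential upper bound. -/
theorem rate_le {x y K : ℝ} {m₀ : ℕ}
    (h : ∀ m : ℕ, m₀ ≤ m → Real.exp (m * y) ≤ K * Real.exp (m * x)) : y ≤ x := by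
  by_contra hlt
  push Not at hlt
  obtain ⟨m, hm⟩ := exists_nat_gt (K / (y - x))
  have hyx : 0 < y - x := sub_pos.2 hlt
  rw [div_lt_iff₀ hyx] at hm
  have h1 := h (max m m₀) (le_max_right _ _)
  have h2 : (m : ℝ) ≤ (max m m₀ : ℕ) := by exact_mod_cast le_max_left m m₀
  set M := max m m₀ with hM
  have h3 : Real.exp (M * (y - x)) ≤ K := by
    have e : Real.exp (M * y) = Real.exp (M * (y - x)) * Real.exp (M * x) := by
      rw [← Real.exp_add]; congr 1; ring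
    rw [e] at h1
    exact le_of_mul_le_mul_right h1 (Real.exp_pos _)
  have h4 := Real.add_one_le_exp (M * (y - x))
  have h5 : (m : ℝ) * (y - x) ≤ M * (y - x) := mul_le_mul_of_nonneg_right h2 hyx.le
  linarith

/-- Growth along the Birman-Series set bounds the traces of simple elements. -/
theorem tr_le_of_growth {f : ℍ → Γ}
    (hfe : ∀ (g : Γ) z, f (g • z) = f z * g⁻¹) {T C : ℝ} (hT : 0 < T) (hC : 0 < C) {ρ : Rep Γ d}
    (hgrow : ∀ c ∈ birmanSeries Γ, ∀ t, T ≤ t →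
        (2 : ℝ) ^ ⌊t / T⌋₊ ≤ C * (mn (ρ.1 (f (c.1 t) * (f (c.1 0))⁻¹)).1) ^ d)
    {g : Γ} (hg : IsSimpleElt g) {B : ℝ} (hB : 1 ≤ B) (hGr : Gr (ρ.1 g).1 B) :
    |tr g| ≤ 4 * Real.exp (T * (d * Real.log B) / Real.log 2) + 1 := by
  obtain ⟨c, l, hc, hgc⟩ := hg
  obtain ⟨D, hD⟩ := hGr
  have hl := hc.1
  have hlog2 : 0 < Real.log 2 := Real.log_pos (by norm_num)
  set c' := rev c with hc'
  have hc'm : c' ∈ birmanSeries Γ := simple_mem (isSimpleClosed_rev hc)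
  have hgc' : act g⁻¹ c' = flow l c' := by
    rw [hc', act_rev, inv_axis hgc, rev_flow, neg_neg]
  have hpt : ∀ m : ℕ, c'.1 (m * l) = (g ^ m)⁻¹ • c'.1 0 := by
    intro m
    have h1 := zpow_axis hgc' m
    rw [zpow_natCast, inv_pow] at h1
    rw [← act_apply, h1, flow_apply, zero_add]
    simp
  set f₀ := f (c'.1 0) with hf₀
  have hfm : ∀ m : ℕ, f (c'.1 (m * l)) = f₀ * g ^ m := by
    intro m
    rw [hpt, hfe, inv_inv]
  have hmn : ∀ m : ℕ, mn (ρ.1 (f (c'.1 (m * l)) * f₀⁻¹)).1 ≤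
      mn (ρ.1 f₀).1 * mn (ρ.1 f₀⁻¹).1 * |D| * B ^ m := by
    intro m
    rw [hfm, rep_mul_coe, rep_mul_coe, rep_pow, Matrix.SpecialLinearGroup.coe_pow]
    have h1 : mn ((ρ.1 g).1 ^ m) ≤ |D| * B ^ m :=
      (hD m).trans (mul_le_mul_of_nonneg_right (le_abs_self D) (by positivity))
    calc mn ((ρ.1 f₀).1 * (ρ.1 g).1 ^ m * (ρ.1 f₀⁻¹).1)
        ≤ (mn (ρ.1 f₀).1 * (|D| * B ^ m)) * mn (ρ.1 f₀⁻¹).1 := by
          refine (mn_mul _ _).trans (mul_le_mul_of_nonneg_right ?_ (mn_nonneg _))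
          exact (mn_mul _ _).trans (mul_le_mul_of_nonneg_left h1 (mn_nonneg _))
      _ = _ := by ring
  set E := mn (ρ.1 f₀).1 * mn (ρ.1 f₀⁻¹).1 * |D| with hE
  have hE0 : 0 ≤ E := mul_nonneg (mul_nonneg (mn_nonneg _) (mn_nonneg _)) (abs_nonneg _)
  have hrate : l * Real.log 2 / T ≤ d * Real.log B := by
    apply rate_le (K := 2 * (C * E ^ d)) (m₀ := ⌈T / l⌉₊)
    intro m hm
    have hml : T ≤ m * l := by
      have h1 : T / l ≤ m := (Nat.le_ceil _).trans (by exact_mod_cast hm)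
      rwa [div_le_iff₀ hl] at h1
    have h1 := hgrow c' hc'm (m * l) hml
    have h2 : C * (mn (ρ.1 (f (c'.1 (m * l)) * (f (c'.1 0))⁻¹)).1) ^ d ≤
        C * E ^ d * Real.exp (m * (d * Real.log B)) := by
      have h3 : Real.exp (m * (d * Real.log B)) = (B ^ m) ^ d := by
        rw [← mul_assoc, mul_comm ((m : ℝ) * d), Real.exp_mul, Real.exp_log (by linarith), ← pow_mul,
          ← Nat.cast_mul, Real.rpow_natCast]
      rw [h3, mul_assoc, ← mul_pow]
      refine mul_le_mul_of_nonneg_left ?_ hC.le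
      exact pow_le_pow_left₀ (mn_nonneg _) (hmn m) d
    have h3 : Real.exp (m * (l * Real.log 2 / T)) ≤ 2 * 2 ^ ⌊m * l / T⌋₊ := by
      have e : (m : ℝ) * (l * Real.log 2 / T) = Real.log 2 * (m * l / T) := by ring
      rw [e, Real.exp_mul, Real.exp_log (by norm_num)]
      have h4 : (m : ℝ) * l / T ≤ ((⌊m * l / T⌋₊ + 1 : ℕ) : ℝ) := by
        push_cast
        exact (Nat.lt_floor_add_one _).le
      calc (2 : ℝ) ^ ((m : ℝ) * l / T) ≤ 2 ^ (((⌊m * l / T⌋₊ + 1 : ℕ) : ℝ)) :=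
            Real.rpow_le_rpow_of_exponent_le (by norm_num) h4
        _ = 2 * 2 ^ ⌊m * l / T⌋₊ := by rw [Real.rpow_natCast, pow_succ, mul_comm]
    calc Real.exp (m * (l * Real.log 2 / T)) ≤ 2 * 2 ^ ⌊m * l / T⌋₊ := h3
      _ ≤ 2 * (C * E ^ d * Real.exp (m * (d * Real.log B))) :=
        mul_le_mul_of_nonneg_left (h1.trans h2) (by norm_num)
      _ = _ := by ring
  have hlL : l ≤ T * (d * Real.log B) / Real.log 2 := by
    rw [div_le_iff₀ hT] at hrate
    rw [le_div_iff₀ hlog2]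
    linarith
  have h1 := (tr_sq_of_axis hl hgc).2
  have h2 : Real.exp l ≤ Real.exp (T * (d * Real.log B) / Real.log 2) := Real.exp_le_exp.2 hlL
  have h3 : |tr g| ≤ tr g ^ 2 + 1 := by
    rw [← sq_abs]
    nlinarith [abs_nonneg (tr (g : SL(2, ℝ))), sq_nonneg (|tr (g : SL(2, ℝ))| - 1)]
  linarith

/-- A set of classes of representations is uniformly proper on simple elements: if the powers of
`ρ(g)` grow at most like the powers of `B`, then the trace of the simple element `g` of the Fuchsian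
group is bounded by a constant depending only on `B`. -/
def Good (V : Set (CharVar Γ d)) : Prop :=
  ∀ B : ℝ, 1 ≤ B → ∃ B' : ℝ, ∀ ρ : CRep Γ d, Quotient.mk (conjSetoid Γ d) ρ ∈ V → ∀ g : Γ,
    IsSimpleElt g → Gr (ρ.1.1 g).1 B → |tr g| ≤ B'

/-- The set of the classes with a neighbourhood which is uniformly proper on simple elements. -/
def properDomain (Γ : Subgroup SL(2, ℝ)) (d : ℕ) : Set (CharVar Γ d) :=
  {x | ∃ V : Set (CharVar Γ d), IsOpen V ∧ x ∈ V ∧ Good V}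

theorem isOpen_properDomain : IsOpen (properDomain Γ d) := by
  rw [isOpen_iff_forall_mem_open]
  rintro x ⟨V, hV, hx, hg⟩
  exact ⟨V, fun y hy => ⟨V, hV, hy, hg⟩, hV, hx⟩

theorem continuous_twistRep (φ : MulAut Γ) : Continuous (twistRep φ : Rep Γ d → Rep Γ d) := by
  refine continuous_induced_rng.2 (continuous_pi fun g => ?_)
  exact (continuous_apply (φ⁻¹ g)).comp continuous_subtype_val

theorem continuous_twist (φ : MulAut Γ) : Continuous (twist φ : CharVar Γ d → CharVar Γ d) :=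
  Continuous.quotient_map' (Continuous.subtype_mk ((continuous_twistRep φ).comp
    continuous_subtype_val) _) _

theorem twist_mk (φ : MulAut Γ) (ρ : CRep Γ d) : twist φ (Quotient.mk (conjSetoid Γ d) ρ) =
    Quotient.mk (conjSetoid Γ d) ⟨twistRep φ ρ.1, twistRep_completelyReducible φ ρ.2⟩ := rfl

theorem twist_twist_inv (φ : MulAut Γ) (x : CharVar Γ d) : twist φ⁻¹ (twist φ x) = x := by
  obtain ⟨ρ, rfl⟩ := Quotient.exists_rep x
  rw [twist_mk, twist_mk]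
  congr 1
  apply Subtype.ext
  apply Subtype.ext
  funext g
  change ρ.1.1 (φ⁻¹ ((φ⁻¹)⁻¹ g)) = ρ.1.1 g
  rw [inv_inv, MulAut.inv_apply_self]

theorem properDomain_twist (hΓ : IsClosedSurface Γ) (φ : MulAut Γ) {x : CharVar Γ d}
    (hx : x ∈ properDomain Γ d) : twist φ x ∈ properDomain Γ d := by
  obtain ⟨V, hV, hxV, hg⟩ := hx
  refine ⟨twist φ⁻¹ ⁻¹' V, hV.preimage (continuous_twist _), ?_, ?_⟩
  · rw [Set.mem_preimage, twist_twist_inv]
    exact hxV
  · intro B hB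
    obtain ⟨B1, hB1⟩ := hg B hB
    obtain ⟨B2, hB2⟩ := tr_aut_bound hΓ φ B1
    refine ⟨B2, fun ρ hρ g hg hGr => ?_⟩
    rw [Set.mem_preimage, twist_mk] at hρ
    have h1 := hB1 _ hρ (φ⁻¹ g) (hΓ.simple_aut φ⁻¹ hg) (by
      change Gr (ρ.1.1 ((φ⁻¹)⁻¹ (φ⁻¹ g))).1 B
      rw [inv_inv, MulAut.apply_inv_self]
      exact hGr)
    have h2 := hB2 _ h1
    rwa [MulAut.apply_inv_self] at h2

theorem Good.mono {V W : Set (CharVar Γ d)} (h : V ⊆ W) (hW : Good W) : Good V := by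
  intro B hB
  obtain ⟨B', hB'⟩ := hW B hB
  exact ⟨B', fun ρ hρ => hB' ρ (h hρ)⟩

theorem Good.union {V W : Set (CharVar Γ d)} (hV : Good V) (hW : Good W) : Good (V ∪ W) := by
  intro B hB
  obtain ⟨B1, hB1⟩ := hV B hB
  obtain ⟨B2, hB2⟩ := hW B hB
  refine ⟨max B1 B2, fun ρ hρ g hg hGr => ?_⟩
  rcases hρ with hρ | hρ
  · exact (hB1 ρ hρ g hg hGr).trans (le_max_left _ _)
  · exact (hB2 ρ hρ g hg hGr).trans (le_max_right _ _)

theorem good_of_isCompact {K : Set (CharVar Γ d)} (hK : IsCompact K) (hKU : K ⊆ properDomain Γ d) :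
    Good K := by
  refine hK.induction_on (p := fun s => Good s) ?_ (fun s t h ht => ht.mono h)
    (fun s t hs ht => hs.union ht) ?_
  · intro B _
    exact ⟨0, fun ρ hρ => absurd hρ (Set.notMem_empty _)⟩
  · intro x hx
    obtain ⟨V, hV, hxV, hg⟩ := hKU hx
    exact ⟨V, mem_nhdsWithin_of_mem_nhds (hV.mem_nhds hxV), hg⟩

/-- The conjugate of a representation. -/
def conjRep (h : SL(d, ℂ)) (ρ : Rep Γ d) : Rep Γ d :=
  ⟨fun g => h * ρ.1 g * h⁻¹, fun x y => by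
    change h * ρ.1 (x * y) * h⁻¹ = (h * ρ.1 x * h⁻¹) * (h * ρ.1 y * h⁻¹)
    rw [ρ.2]
    group⟩

theorem continuous_conj (h : SL(d, ℂ)) : Continuous fun x : SL(d, ℂ) => h * x * h⁻¹ :=
  (continuous_const.mul continuous_id).mul continuous_const

theorem continuous_conjRep (h : SL(d, ℂ)) : Continuous (conjRep h : Rep Γ d → Rep Γ d) :=
  Continuous.subtype_mk (continuous_pi fun g => (continuous_conj h).comp
    ((continuous_apply g).comp continuous_subtype_val)) _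

/-- The classes with a conjugate in a given open set of representations form an open set. -/
theorem isOpen_classes {V : Set (Rep Γ d)} (hV : IsOpen V) :
    IsOpen {x : CharVar Γ d | ∃ ρ : CRep Γ d, Quotient.mk (conjSetoid Γ d) ρ = x ∧
      ∃ h : SL(d, ℂ), conjRep h ρ.1 ∈ V} := by
  have hq : IsOpen ((Quotient.mk (conjSetoid Γ d)) ⁻¹' {x : CharVar Γ d | ∃ ρ : CRep Γ d,
      Quotient.mk (conjSetoid Γ d) ρ = x ∧ ∃ h : SL(d, ℂ), conjRep h ρ.1 ∈ V}) := by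
    have : ((Quotient.mk (conjSetoid Γ d)) ⁻¹' {x : CharVar Γ d | ∃ ρ : CRep Γ d,
      Quotient.mk (conjSetoid Γ d) ρ = x ∧ ∃ h : SL(d, ℂ), conjRep h ρ.1 ∈ V}) =
      ⋃ h : SL(d, ℂ), (fun ρ : CRep Γ d => conjRep h ρ.1) ⁻¹' V := by
      ext ρ
      simp only [Set.mem_preimage, Set.mem_ofPred_eq, Set.mem_iUnion]
      constructor
      · rintro ⟨ρ', h1, h, h2⟩
        obtain ⟨k, hk⟩ : (conjSetoid Γ d).r ρ' ρ := Quotient.exact h1
        refine ⟨h * k⁻¹, ?_⟩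
        have : conjRep (h * k⁻¹) ρ.1 = conjRep h ρ'.1 := by
          apply Subtype.ext
          funext g
          change h * k⁻¹ * ρ.1.1 g * (h * k⁻¹)⁻¹ = h * ρ'.1.1 g * h⁻¹
          rw [hk g]
          group
        rw [this]
        exact h2
      · rintro ⟨h, hh⟩
        exact ⟨ρ, rfl, h, hh⟩
    rw [this]
    exact isOpen_iUnion fun h => hV.preimage ((continuous_conjRep h).comp continuous_subtype_val)
  exact hq

/-- On a compact set of classes the powers of `ρ(g)` grow at a bounded rate. -/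
theorem exists_gr_bound {K : Set (CharVar Γ d)} (hK : IsCompact K) (g : Γ) :
    ∃ B : ℝ, 1 ≤ B ∧ ∀ ρ : CRep Γ d, Quotient.mk (conjSetoid Γ d) ρ ∈ K → Gr (ρ.1.1 g).1 B := by
  have hmono : ∀ {A : Matrix (Fin d) (Fin d) ℂ} {B B' : ℝ}, 1 ≤ B → B ≤ B' → Gr A B → Gr A B' := by
    rintro A B B' h1 h2 ⟨C, hC⟩
    refine ⟨|C|, fun m => (hC m).trans ?_⟩
    have h3 : B ^ m ≤ B' ^ m := pow_le_pow_left₀ (by linarith) h2 m
    have h4 : 0 ≤ B ^ m := by positivity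
    exact (mul_le_mul_of_nonneg_right (le_abs_self C) h4).trans
      (mul_le_mul_of_nonneg_left h3 (abs_nonneg _))
  refine hK.induction_on (p := fun s => ∃ B : ℝ, 1 ≤ B ∧ ∀ ρ : CRep Γ d,
    Quotient.mk (conjSetoid Γ d) ρ ∈ s → Gr (ρ.1.1 g).1 B) ?_ ?_ ?_ ?_
  · exact ⟨1, le_rfl, fun ρ hρ => absurd hρ (Set.notMem_empty _)⟩
  · rintro s t h ⟨B, hB, hB'⟩
    exact ⟨B, hB, fun ρ hρ => hB' ρ (h hρ)⟩
  · rintro s t ⟨B, hB, hB'⟩ ⟨C, hC, hC'⟩
    refine ⟨max B C, hB.trans (le_max_left _ _), ?_⟩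
    rintro ρ (hρ | hρ)
    · exact hmono hB (le_max_left _ _) (hB' ρ hρ)
    · exact hmono hC (le_max_right _ _) (hC' ρ hρ)
  · intro x _
    obtain ⟨ρ₀, rfl⟩ := Quotient.exists_rep x
    set B := mn (ρ₀.1.1 g).1 + 1 with hB
    have hV : IsOpen {ρ : Rep Γ d | mn (ρ.1 g).1 < B} :=
      isOpen_lt (continuous_mn.comp (continuous_repEval g)) continuous_const
    refine ⟨_, mem_nhdsWithin_of_mem_nhds ((isOpen_classes hV).mem_nhds ⟨ρ₀, rfl, 1, ?_⟩), B, ?_, ?_⟩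
    · change mn (1 * ρ₀.1.1 g * 1⁻¹ : SL(d, ℂ)).1 < B
      rw [one_mul, inv_one, mul_one, hB]
      linarith
    · have := mn_nonneg (ρ₀.1.1 g).1
      linarith
    · rintro ρ ⟨ρ', h1, h, h2⟩
      obtain ⟨k, hk⟩ : (conjSetoid Γ d).r ρ' ρ := Quotient.exact h1
      have h3 : Gr (h * ρ'.1.1 g * h⁻¹ : SL(d, ℂ)).1 B := gr_of_le (le_of_lt h2)
      have h4 := gr_conj (k * h⁻¹) h3
      have e : k * h⁻¹ * (h * ρ'.1.1 g * h⁻¹) * (k * h⁻¹)⁻¹ = ρ.1.1 g := by
        rw [hk g]; group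
      rwa [e] at h4

/-- `properDomain` is a domain of discontinuity. -/
theorem isDomain_properDomain (hΓ : IsClosedSurface Γ) (d : ℕ) :
    IsDomainOfDiscontinuity (properDomain Γ d) := by
  refine ⟨isOpen_properDomain, fun φ x hx => properDomain_twist hΓ φ hx, fun K hKU hK => ?_⟩
  have hgood := good_of_isCompact hK hKU
  have hfin := finite_out hΓ {φ : MulAut Γ | ∃ x ∈ K, twist φ x ∈ K} (bounded_of_simple hΓ _ (by
    intro g hg
    obtain ⟨B, hB, hB1⟩ := exists_gr_bound hK g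
    obtain ⟨B', hB'⟩ := hgood B hB
    refine ⟨B', ?_⟩
    rintro φ ⟨x, hx, hx'⟩
    obtain ⟨ρ, hρ⟩ := Quotient.exists_rep (twist φ x)
    have h1 : twist φ⁻¹ (Quotient.mk (conjSetoid Γ d) ρ) = x := by
      rw [hρ, twist_twist_inv]
    rw [twist_mk] at h1
    refine hB' ρ (hρ ▸ hx') (φ g) (hΓ.simple_aut φ hg) ?_
    have h2 := hB1 _ (h1 ▸ hx)
    change Gr (ρ.1.1 ((φ⁻¹)⁻¹ g)).1 B at h2
    rwa [inv_inv] at h2))
  refine hfin.subset ?_
  rintro q ⟨φ, hφ, hx⟩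
  exact ⟨φ, hx, hφ⟩

/-- All the simple Anosov domains are contained in `properDomain`. -/
theorem simpleAnosov_subset (hΓ : IsClosedSurface Γ) {k : ℕ} (hk : 1 ≤ k) (hkd : k < d) :
    simpleAnosovDomain Γ d k ⊆ properDomain Γ d := by
  rintro _ ⟨ρ, hρ, rfl⟩
  obtain ⟨r, f, hr, hf, hfe⟩ := exists_section hΓ
  obtain ⟨V, hV, hρV, T, C, hT, hC, hgrow⟩ := uniform_growth hΓ hk hkd hρ hf
  refine ⟨_, isOpen_classes hV, ⟨ρ, rfl, 1, ?_⟩, ?_⟩
  · have : conjRep 1 ρ.1 = ρ.1 := by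
      apply Subtype.ext
      funext g
      change 1 * ρ.1.1 g * 1⁻¹ = ρ.1.1 g
      rw [one_mul, inv_one, mul_one]
    rw [this]
    exact hρV
  · intro B hB
    refine ⟨4 * Real.exp (T * (d * Real.log B) / Real.log 2) + 1, ?_⟩
    rintro ρ₁ ⟨ρ', h1, h, h2⟩ g hg hGr
    obtain ⟨k, hk⟩ : (conjSetoid Γ d).r ρ' ρ₁ := Quotient.exact h1
    apply tr_le_of_growth hfe hT hC (hgrow _ h2) hg hB
    have h4 := gr_conj (h * k⁻¹) hGr
    have e : h * k⁻¹ * ρ₁.1.1 g * (h * k⁻¹)⁻¹ = (conjRep h ρ'.1).1 g := by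
      change _ = h * ρ'.1.1 g * h⁻¹
      rw [hk g]; group
    rwa [e] at h4

end Pool.Agent.N512.SA
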