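import Pool.Agent.N512.SA.NotAnosov

/-!
# The simple Anosov domains are not maximal
-/

set_option autoImplicit false

open scoped MatrixGroups UpperHalfPlane Matrix Topology Kronecker
open UpperHalfPlane

namespace Pool.Agent.N512.SA

open Pool.Agent.Y473.SA

variable {Γ : Subgroup SL(2, ℝ)} {d : ℕ}

/-- Conjugates of simple Anosov representations are simple Anosov. -/
theorem anosov_conj {ρ ρ' : Rep Γ d} {k : ℕ} (h : SL(d, ℂ)) (hh : ∀ g, ρ'.1 g = h * ρ.1 g * h⁻¹)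
    (H : IsSimpleAnosov k ρ') : IsSimpleAnosov k ρ := by
  obtain ⟨P, N, C, a, hC, ha, hPc, hPr, hPe, hPf, hNc, hN0, hNe, hdom⟩ := H
  have hi : (h⁻¹ : SL(d, ℂ)).1 * h.1 = 1 := by
    have : (h⁻¹ * h : SL(d, ℂ)).1 = 1 := by rw [inv_mul_cancel]; rfl
    exact this
  have hi' : h.1 * (h⁻¹ : SL(d, ℂ)).1 = 1 := by
    have : (h * h⁻¹ : SL(d, ℂ)).1 = 1 := by rw [mul_inv_cancel]; rfl
    exact this
  have hg : ∀ g, h.1 * (ρ.1 g).1 = (ρ'.1 g).1 * h.1 := by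
    intro g
    have : (h * ρ.1 g : SL(d, ℂ)) = ρ'.1 g * h := by rw [hh g]; group
    exact congrArg (fun X : SL(d, ℂ) => X.1) this
  have hg' : ∀ g, (ρ.1 g).1 * (h⁻¹ : SL(d, ℂ)).1 = (h⁻¹ : SL(d, ℂ)).1 * (ρ'.1 g).1 := by
    intro g
    have : (ρ.1 g * h⁻¹ : SL(d, ℂ)) = h⁻¹ * ρ'.1 g := by rw [hh g]; group
    exact congrArg (fun X : SL(d, ℂ) => X.1) this
  have hvec : ∀ {c : UT} {v : Fin d → ℂ}, ((h⁻¹ : SL(d, ℂ)).1 * P c * h.1) *ᵥ v = v →
      P c *ᵥ (h.1 *ᵥ v) = h.1 *ᵥ v := by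
    intro c v hv
    have h1 := congrArg (fun x => h.1 *ᵥ x) hv
    simp only [Matrix.mulVec_mulVec, ← mul_assoc, hi', one_mul] at h1
    rw [Matrix.mulVec_mulVec]
    exact h1
  have hvec' : ∀ {c : UT} {v : Fin d → ℂ}, ((h⁻¹ : SL(d, ℂ)).1 * P c * h.1) *ᵥ v = 0 →
      P c *ᵥ (h.1 *ᵥ v) = 0 := by
    intro c v hv
    have h1 := congrArg (fun x => h.1 *ᵥ x) hv
    simp only [Matrix.mulVec_mulVec, ← mul_assoc, hi', one_mul, Matrix.mulVec_zero] at h1
    rw [Matrix.mulVec_mulVec]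
    exact h1
  refine ⟨fun c => (h⁻¹ : SL(d, ℂ)).1 * P c * h.1, fun c => (N c).comp h.1.mulVecLin, C, a, hC, ha,
    ?_, ?_, ?_, ?_, ?_, ?_, ?_, ?_⟩
  · have h1 : Continuous fun X : Matrix (Fin d) (Fin d) ℂ => (h⁻¹ : SL(d, ℂ)).1 * X * h.1 :=
      (continuous_const.matrix_mul continuous_id).matrix_mul continuous_const
    exact h1.comp_continuousOn hPc
  · intro c hc
    obtain ⟨h1, h2⟩ := hPr c hc
    have hidem : (h⁻¹ : SL(d, ℂ)).1 * P c * h.1 * ((h⁻¹ : SL(d, ℂ)).1 * P c * h.1) =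
        (h⁻¹ : SL(d, ℂ)).1 * P c * h.1 := by
      calc (h⁻¹ : SL(d, ℂ)).1 * P c * h.1 * ((h⁻¹ : SL(d, ℂ)).1 * P c * h.1)
          = (h⁻¹ : SL(d, ℂ)).1 * P c * (h.1 * (h⁻¹ : SL(d, ℂ)).1) * P c * h.1 := by
            simp only [mul_assoc]
        _ = (h⁻¹ : SL(d, ℂ)).1 * (P c * P c) * h.1 := by
            rw [hi', mul_one]; simp only [mul_assoc]
        _ = _ := by rw [h1]
    refine ⟨hidem, ?_⟩
    have h3 := rank_eq_trace hidem
    rw [Matrix.trace_mul_comm, ← mul_assoc, hi', one_mul, ← rank_eq_trace h1, h2] at h3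
    exact_mod_cast h3
  · intro c hc g
    calc (h⁻¹ : SL(d, ℂ)).1 * P (act g c) * h.1 * (ρ.1 g).1
        = (h⁻¹ : SL(d, ℂ)).1 * (P (act g c) * (ρ'.1 g).1) * h.1 := by
          rw [mul_assoc, hg]; simp only [mul_assoc]
      _ = ((h⁻¹ : SL(d, ℂ)).1 * (ρ'.1 g).1) * P c * h.1 := by
          rw [hPe c hc g]; simp only [mul_assoc]
      _ = _ := by rw [← hg']; simp only [mul_assoc]
  · intro c hc t
    change (h⁻¹ : SL(d, ℂ)).1 * P (flow t c) * h.1 = _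
    rw [hPf c hc t]
  · have h1 : Continuous fun p : UT × (Fin d → ℂ) => (p.1, h.1 *ᵥ p.2) :=
      continuous_fst.prodMk (continuous_const.matrix_mulVec continuous_snd)
    exact hNc.comp h1.continuousOn fun p hp => ⟨hp.1, trivial⟩
  · intro c hc v hv
    have h1 : h.1 *ᵥ v = 0 := hN0 c hc _ hv
    have h2 := congrArg (fun x => (h⁻¹ : SL(d, ℂ)).1 *ᵥ x) h1
    simp only [Matrix.mulVec_mulVec, hi, Matrix.one_mulVec, Matrix.mulVec_zero] at h2
    exact h2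
  · intro c hc g v
    change N (act g c) (h.1 *ᵥ ((ρ.1 g).1 *ᵥ v)) = N c (h.1 *ᵥ v)
    rw [Matrix.mulVec_mulVec, hg, ← Matrix.mulVec_mulVec]
    exact hNe c hc g _
  · intro c hc v w hv hw t ht
    exact hdom c hc _ _ (hvec hv) (hvec' hw) t ht

/-- The class of a completely reducible representation which is not simple `k`-Anosov does not
belong to the simple `k`-Anosov domain. -/
theorem not_mem_domain {ρ : CRep Γ d} {k : ℕ} (h : ¬ IsSimpleAnosov k ρ.1) :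
    Quotient.mk (conjSetoid Γ d) ρ ∉ simpleAnosovDomain Γ d k := by
  rintro ⟨ρ', h1, h2⟩
  obtain ⟨x, hx⟩ : (conjSetoid Γ d).r ρ ρ' := (conjSetoid Γ d).symm (Quotient.exact h2)
  exact h (anosov_conj x hx h1)

theorem exists_index {m n d : ℕ} (h : d = 2 * m + n) : Nonempty ((Fin 2 × Fin m) ⊕ Fin n ≃ Fin d) := by
  refine ⟨Fintype.equivFinOfCardEq ?_⟩
  simp [h]

/-- The domain `properDomain` strictly contains all the simple Anosov domains. -/
theorem ssubset_properDomain (hΓ : IsClosedSurface Γ) (hd : 4 ≤ d) {k : ℕ} (hk : 1 ≤ k)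
    (hkd : k < d) : simpleAnosovDomain Γ d k ⊂ properDomain Γ d := by
  refine ⟨simpleAnosov_subset hΓ hk hkd, fun hsub => ?_⟩
  -- the general step
  have key : ∀ m n : ℕ, 1 ≤ m → m < d → d = 2 * m + n → k ≠ m → k ≠ m + n → False := by
    intro m n hm hmd hdmn hkm hkmn
    obtain ⟨e⟩ := exists_index hdmn
    let ρ : CRep Γ d := ⟨blkRep e Γ, blkRep_cr e hΓ⟩
    have h1 : Quotient.mk (conjSetoid Γ d) ρ ∈ properDomain Γ d :=
      simpleAnosov_subset hΓ hm hmd ⟨ρ, blkRep_anosov e Γ, rfl⟩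
    exact not_mem_domain (ρ := ρ)
      (blkRep_not_anosov e hΓ hm (by omega) hkm hkmn (by omega)) (hsub h1)
  by_cases h : k = 1 ∨ k = d - 1
  · exact key 2 (d - 4) (by omega) (by omega) (by omega) (by omega) (by omega)
  · exact key 1 (d - 2) (by omega) (by omega) (by omega) (by omega) (by omega)

end Pool.Agent.N512.SA
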