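import Pool.Agent.N512.SA.Stab

/-!
# Uniform growth near a simple Anosov representation
-/

set_option autoImplicit false

open scoped MatrixGroups UpperHalfPlane Matrix
open UpperHalfPlane

namespace Pool.Agent.N512.SA

open Pool.Agent.Y473.SA

variable {Γ : Subgroup SL(2, ℝ)} {d : ℕ}

/-- An equivariant choice of elements moving a point into a fixed ball. -/
theorem exists_section (hΓ : IsClosedSurface Γ) :
    ∃ (r : ℝ) (f : ℍ → Γ), 0 < r ∧ (∀ z, dist I (f z • z) ≤ r) ∧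
      ∀ (g : Γ) z, f (g • z) = f z * g⁻¹ := by
  obtain ⟨r, hr0, hr⟩ := hΓ.exists_radius
  choose φ hφ using hr
  let o : ℍ → ℍ := fun z => Quotient.out (s := MulAction.orbitRel Γ ℍ) (Quotient.mk _ z)
  have ho : ∀ z : ℍ, ∃ g : Γ, g • z = φ (o z) • o z := by
    intro z
    have h1 : (MulAction.orbitRel Γ ℍ).r (o z) z := Quotient.mk_out (s := MulAction.orbitRel Γ ℍ) z
    obtain ⟨x, hx⟩ := h1
    refine ⟨φ (o z) * x, ?_⟩
    rw [mul_smul]
    exact congrArg _ hx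
  choose f hf using ho
  refine ⟨r, f, hr0, fun z => ?_, fun g z => ?_⟩
  · rw [hf]; exact hφ _
  · have h1 : o (g • z) = o z := by
      have : Quotient.mk (MulAction.orbitRel Γ ℍ) (g • z) = Quotient.mk (MulAction.orbitRel Γ ℍ) z :=
        Quotient.sound ⟨g, rfl⟩
      exact congrArg Quotient.out this
    have h2 := hf (g • z)
    rw [h1, ← hf z, ← mul_smul] at h2
    have h3 := hΓ.eq_of_smul_eq h2
    rw [← h3, mul_inv_cancel_right]

theorem continuous_repEval (g : Γ) : Continuous fun ρ : Rep Γ d => (ρ.1 g).1 :=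
  continuous_subtype_val.comp ((continuous_apply g).comp continuous_subtype_val)

theorem rep_one (ρ : Rep Γ d) : ρ.1 1 = 1 := by
  have := ρ.2 1 1
  rw [mul_one] at this
  exact left_eq_mul.1 this

theorem rep_inv (ρ : Rep Γ d) (g : Γ) : ρ.1 g⁻¹ = (ρ.1 g)⁻¹ := by
  have := ρ.2 g⁻¹ g
  rw [inv_mul_cancel, rep_one] at this
  exact eq_inv_of_mul_eq_one_left this.symm

theorem rep_mul_coe (ρ : Rep Γ d) (g h : Γ) : (ρ.1 (g * h)).1 = (ρ.1 g).1 * (ρ.1 h).1 := by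
  rw [ρ.2]; rfl

theorem rep_inv_mul_coe (ρ : Rep Γ d) (g : Γ) : (ρ.1 g⁻¹).1 * (ρ.1 g).1 = 1 := by
  rw [← rep_mul_coe, inv_mul_cancel, rep_one]; rfl

theorem rep_mul_inv_coe (ρ : Rep Γ d) (g : Γ) : (ρ.1 g).1 * (ρ.1 g⁻¹).1 = 1 := by
  rw [← rep_mul_coe, mul_inv_cancel, rep_one]; rfl

theorem rep_pow (ρ : Rep Γ d) (g : Γ) (m : ℕ) : ρ.1 (g ^ m) = (ρ.1 g) ^ m := by
  induction m with
  | zero => rw [pow_zero, pow_zero, rep_one]
  | succ m ih => rw [pow_succ, pow_succ, ρ.2, ih]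

/-- A nonzero vector in the image of a projection of positive rank. -/
theorem exists_im {P : Matrix (Fin d) (Fin d) ℂ} {k : ℕ} (hk : 1 ≤ k) (hPP : P * P = P)
    (hr : P.rank = k) : ∃ v, v ≠ 0 ∧ P *ᵥ v = v := by
  by_contra hcon
  push Not at hcon
  have : P = 0 := by
    apply Matrix.ext_of_mulVec_single
    intro i
    by_contra h
    rw [Matrix.zero_mulVec] at h
    exact hcon _ h (by rw [Matrix.mulVec_mulVec, hPP])
  rw [this, Matrix.rank_zero] at hr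
  omega

/-- A nonzero vector in the kernel of a projection of rank less than `d`. -/
theorem exists_ker {P : Matrix (Fin d) (Fin d) ℂ} {k : ℕ} (hk : k < d) (hPP : P * P = P)
    (hr : P.rank = k) : ∃ v, v ≠ 0 ∧ P *ᵥ v = 0 := by
  by_contra hcon
  push Not at hcon
  have : P = 1 := by
    apply Matrix.ext_of_mulVec_single
    intro i
    by_contra h
    rw [Matrix.one_mulVec] at h
    refine hcon (P *ᵥ Pi.single i 1 - Pi.single i 1) (sub_ne_zero.2 h) ?_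
    rw [Matrix.mulVec_sub, Matrix.mulVec_mulVec, hPP, sub_self]
  rw [this, Matrix.rank_one, Fintype.card_fin] at hr
  omega

/-- The constants of the cone argument: one step. -/
theorem step_estimates {M η₀ : ℝ} (hM : 1 ≤ M) (_hη : 0 ≤ η₀) {P P' A A' : Matrix (Fin d) (Fin d) ℂ}
    {N N' : Seminorm ℂ (Fin d → ℂ)} (hP' : mn P' ≤ M) (hN' : ∀ v, N' v ≤ M * ‖v‖)
    (hN : ∀ v, ‖v‖ ≤ M * N v) (hA : mn (A' - A) ≤ η₀) (u : Fin d → ℂ) :
    |N' (P' *ᵥ (A' *ᵥ u)) - N' (P' *ᵥ (A *ᵥ u))| ≤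
      4 * M ^ 3 * η₀ * max (N (P *ᵥ u)) (N (u - P *ᵥ u)) ∧
    |N' (A' *ᵥ u - P' *ᵥ (A' *ᵥ u)) - N' (A *ᵥ u - P' *ᵥ (A *ᵥ u))| ≤
      4 * M ^ 3 * η₀ * max (N (P *ᵥ u)) (N (u - P *ᵥ u)) := by
  set m := max (N (P *ᵥ u)) (N (u - P *ᵥ u)) with hm
  have hm0 : 0 ≤ m := (apply_nonneg _ _).trans (le_max_left _ _)
  have hu : ‖u‖ ≤ 2 * M * m := by
    have h1 := hN u
    have h2 : N u ≤ N (P *ᵥ u) + N (u - P *ᵥ u) := by
      have := map_add_le_add N (P *ᵥ u) (u - P *ᵥ u)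
      rwa [add_sub_cancel] at this
    have h3 : N (P *ᵥ u) ≤ m := le_max_left _ _
    have h4 : N (u - P *ᵥ u) ≤ m := le_max_right _ _
    have h5 : M * N u ≤ M * (2 * m) := mul_le_mul_of_nonneg_left (by linarith) (by linarith)
    linarith
  have hD : ‖(A' - A) *ᵥ u‖ ≤ η₀ * (2 * M * m) :=
    (norm_mulVec_le _ _).trans (mul_le_mul hA hu (norm_nonneg _) ((mn_nonneg _).trans hA))
  have hPD : ‖P' *ᵥ ((A' - A) *ᵥ u)‖ ≤ M * (η₀ * (2 * M * m)) :=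
    (norm_mulVec_le _ _).trans (mul_le_mul hP' hD (norm_nonneg _) (by linarith))
  have hX : 0 ≤ η₀ * m := mul_nonneg _hη hm0
  have hM2 : M * M ≤ M ^ 3 := by nlinarith [mul_nonneg (by linarith : (0 : ℝ) ≤ M) (by linarith : (0:ℝ) ≤ M)]
  have hM3 : M ^ 3 = M * M * M := by ring
  constructor
  · have e : P' *ᵥ (A' *ᵥ u) - P' *ᵥ (A *ᵥ u) = P' *ᵥ ((A' - A) *ᵥ u) := by
      rw [Matrix.sub_mulVec, Matrix.mulVec_sub]
    refine (abs_sub_map_le_sub N' _ _).trans ?_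
    rw [e]
    refine (hN' _).trans ((mul_le_mul_of_nonneg_left hPD (by linarith)).trans ?_)
    have : M * (M * (η₀ * (2 * M * m))) = 2 * M ^ 3 * (η₀ * m) := by ring
    rw [this]
    have h1 : 0 ≤ M ^ 3 * (η₀ * m) := mul_nonneg (by positivity) hX
    linarith
  · have e : (A' *ᵥ u - P' *ᵥ (A' *ᵥ u)) - (A *ᵥ u - P' *ᵥ (A *ᵥ u)) =
        (A' - A) *ᵥ u - P' *ᵥ ((A' - A) *ᵥ u) := by
      rw [Matrix.sub_mulVec, Matrix.mulVec_sub]; abel
    refine (abs_sub_map_le_sub N' _ _).trans ?_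
    rw [e]
    refine (hN' _).trans ?_
    have h1 : ‖(A' - A) *ᵥ u - P' *ᵥ ((A' - A) *ᵥ u)‖ ≤ η₀ * (2 * M * m) + M * (η₀ * (2 * M * m)) :=
      (norm_sub_le _ _).trans (add_le_add hD hPD)
    refine (mul_le_mul_of_nonneg_left h1 (by linarith)).trans ?_
    have : M * (η₀ * (2 * M * m) + M * (η₀ * (2 * M * m))) = 2 * (M * M) * (η₀ * m) +
      2 * M ^ 3 * (η₀ * m) := by ring
    rw [this]
    have h1 : M * M * (η₀ * m) ≤ M ^ 3 * (η₀ * m) := mul_le_mul_of_nonneg_right hM2 hX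
    linarith

/-- Uniform exponential growth along the Birman-Series set for all representations near a simple
`k`-Anosov representation. -/
theorem uniform_growth (hΓ : IsClosedSurface Γ) {k : ℕ} (hk : 1 ≤ k) (hkd : k < d) {ρ : Rep Γ d}
    (hρ : IsSimpleAnosov k ρ) {r : ℝ} {f : ℍ → Γ} (hf : ∀ z, dist I (f z • z) ≤ r) :
    ∃ V : Set (Rep Γ d), IsOpen V ∧ ρ ∈ V ∧ ∃ T C : ℝ, 0 < T ∧ 0 < C ∧ ∀ ρ' ∈ V,
      ∀ c ∈ birmanSeries Γ, ∀ t, T ≤ t →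
        (2 : ℝ) ^ ⌊t / T⌋₊ ≤ C * (mn (ρ'.1 (f (c.1 t) * (f (c.1 0))⁻¹)).1) ^ d := by
  obtain ⟨P, N, C, a, hC, ha, hPc, hPr, hPe, hPf, hNc, hN0, hNe, hdom⟩ := hρ
  set T := |Real.log (8 * C)| / a + 1 with hTdef
  have hT0 : 0 < T := by positivity
  have hT : C * Real.exp (-a * T) ≤ 1 / 8 := by
    have h1 : Real.log (8 * C) ≤ a * T := by
      have : a * T = |Real.log (8 * C)| + a := by rw [hTdef]; field_simp
      rw [this]
      have := le_abs_self (Real.log (8 * C))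
      linarith
    have h2 : 8 * C ≤ Real.exp (a * T) := by
      rwa [← Real.log_le_iff_le_exp (by positivity)]
    have h3 : Real.exp (-a * T) = (Real.exp (a * T))⁻¹ := by rw [← Real.exp_neg]; congr 1; ring
    rw [h3, ← div_eq_mul_inv, div_le_iff₀ (Real.exp_pos _)]
    linarith
  obtain ⟨M, hM1, hM⟩ := exists_bound hPc hNc hN0 r
  have hM0 : 0 < M := by linarith
  set H : Set Γ := {x | ∃ z, dist I z ≤ r + 2 * T ∧ dist I (x • z) ≤ r} with hH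
  have hHfin : H.Finite := by
    refine (hΓ.finite_ball (r + 2 * T)).subset ?_
    rintro x ⟨z, h1, h2⟩
    exact ⟨z, h1, by linarith⟩
  obtain ⟨M2, hM2⟩ := (hHfin.image fun x => mn (ρ.1 x⁻¹).1).bddAbove
  set M2' := max M2 1 with hM2'
  have hM2'0 : 0 < M2' := lt_of_lt_of_le one_pos (le_max_right _ _)
  set M1 := M * M * M2' with hM1def
  have hM10 : 0 < M1 := by positivity
  set η₀ := 1 / (32 * M ^ 3 * M1) with hη₀
  have hη₀0 : 0 < η₀ := by positivity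
  set ε := 4 * M ^ 3 * η₀ with hε
  have hεM : ε * M1 ≤ 1 / 8 := by
    rw [hε, hη₀]
    apply le_of_eq
    field_simp
    norm_num
  set V : Set (Rep Γ d) := ⋂ x ∈ H, {ρ' | mn ((ρ'.1 x).1 - (ρ.1 x).1) < η₀} with hV
  refine ⟨V, ?_, ?_, T, d.factorial * (2 * M ^ 6) ^ d, hT0, by positivity, ?_⟩
  · refine hHfin.isOpen_biInter fun x _ => ?_
    exact isOpen_lt (continuous_mn.comp ((continuous_repEval x).sub continuous_const)) continuous_const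
  · rw [hV, Set.mem_iInter₂]
    intro x _
    rw [Set.mem_ofPred_eq, sub_self]
    have : mn (0 : Matrix (Fin d) (Fin d) ℂ) = 0 := by simp [mn]
    rw [this]
    exact hη₀0
  intro ρ' hρ' c hc t ht
  set n := ⌊t / T⌋₊ with hn
  have hn1 : 1 ≤ n := by
    rw [hn, Nat.one_le_floor_iff, le_div_iff₀ hT0]
    linarith
  have hn0 : (0 : ℝ) < n := by exact_mod_cast hn1
  set T' := t / n with hT'
  have hT'1 : T ≤ T' := by
    rw [hT', le_div_iff₀ hn0]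
    have := Nat.floor_le (a := t / T) (div_nonneg (hT0.le.trans ht) hT0.le)
    rw [le_div_iff₀ hT0] at this
    linarith
  have hT'2 : T' ≤ 2 * T := by
    rw [hT', div_le_iff₀ hn0]
    have := Nat.lt_floor_add_one (t / T)
    rw [div_lt_iff₀ hT0] at this
    have h1 : (1 : ℝ) ≤ n := by exact_mod_cast hn1
    nlinarith
  have hT'0 : 0 ≤ T' := by linarith
  let F : ℕ → Γ := fun i => f (c.1 (i * T'))
  let x : ℕ → UT := fun i => act (F i) (flow (i * T') c)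
  let G : ℕ → Γ := fun i => F (i + 1) * (F i)⁻¹
  have hxm : ∀ i, x i ∈ birmanSeries Γ := fun i => act_mem (flow_mem hc _) _
  have hx0 : ∀ i, dist I ((x i).1 0) ≤ r := by
    intro i
    change dist I (F i • c.1 (0 + i * T')) ≤ r
    rw [zero_add]
    exact hf _
  have hxs : ∀ i, x (i + 1) = act (G i) (flow T' (x i)) := by
    intro i
    change act (F (i + 1)) (flow ((i + 1 : ℕ) * T') c) =
      act (F (i + 1) * (F i)⁻¹) (flow T' (act (F i) (flow (i * T') c)))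
    rw [← act_flow, flow_flow, act_act, inv_mul_cancel_right]
    congr 2
    push_cast
    ring
  have hGH : ∀ i, G i ∈ H := by
    intro i
    refine ⟨(flow T' (x i)).1 0, ?_, ?_⟩
    · have h1 := dist_triangle I ((x i).1 0) ((x i).1 (0 + T'))
      rw [line_dist] at h1
      have h2 := hx0 i
      have h3 : |(0 : ℝ) - (0 + T')| = T' := by
        rw [zero_add, zero_sub, abs_neg, abs_of_nonneg hT'0]
      rw [h3] at h1
      rw [flow_apply]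
      linarith
    · rw [← act_apply, ← hxs]
      exact hx0 _
  have hbd : ∀ i, mn (P (x i)) ≤ M ∧ ∀ v, N (x i) v ≤ M * ‖v‖ ∧ ‖v‖ ≤ M * N (x i) v :=
    fun i => hM _ (hxm i) (hx0 i)
  -- the relations between consecutive fibres
  have e1 : ∀ i, P (x (i + 1)) * (ρ.1 (G i)).1 = (ρ.1 (G i)).1 * P (x i) := by
    intro i
    rw [hxs i, hPe _ (flow_mem (hxm i) _), hPf _ (hxm i)]
  have e2 : ∀ i u, N (x (i + 1)) ((ρ.1 (G i)).1 *ᵥ u) = N (flow T' (x i)) u := by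
    intro i u
    rw [hxs i, hNe _ (flow_mem (hxm i) _)]
  let p : ℕ → (Fin d → ℂ) → ℝ := fun i u => N (x i) (P (x i) *ᵥ u)
  let q : ℕ → (Fin d → ℂ) → ℝ := fun i u => N (x i) (u - P (x i) *ᵥ u)
  let A : ℕ → Matrix (Fin d) (Fin d) ℂ := fun i => (ρ.1 (G i)).1
  let A' : ℕ → Matrix (Fin d) (Fin d) ℂ := fun i => (ρ'.1 (G i)).1
  have hdiff : ∀ i, mn (A' i - A i) ≤ η₀ := by
    intro i
    have := Set.mem_iInter₂.1 hρ' (G i) (hGH i)
    exact le_of_lt this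
  have ePA : ∀ i u, P (x (i + 1)) *ᵥ (A i *ᵥ u) = A i *ᵥ (P (x i) *ᵥ u) := by
    intro i u
    rw [Matrix.mulVec_mulVec, Matrix.mulVec_mulVec]
    exact congrArg (· *ᵥ u) (e1 i)
  obtain ⟨v₀, hv₀, hv₀'⟩ := exists_im hk (hPr _ (hxm 0)).1 (hPr _ (hxm 0)).2
  obtain ⟨wₙ, hwₙ, hwₙ'⟩ := exists_ker hkd (hPr _ (hxm n)).1 (hPr _ (hxm n)).2
  let v : ℕ → (Fin d → ℂ) := fun i => (ρ'.1 (F i * (F 0)⁻¹)).1 *ᵥ v₀
  let w : ℕ → (Fin d → ℂ) := fun i => (ρ'.1 (F i * (F n)⁻¹)).1 *ᵥ wₙ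
  have hstep : ∀ (y : Γ) (u : Fin d → ℂ) i, (ρ'.1 (F (i + 1) * y)).1 *ᵥ u =
      A' i *ᵥ ((ρ'.1 (F i * y)).1 *ᵥ u) := by
    intro y u i
    rw [Matrix.mulVec_mulVec]
    change _ = ((ρ'.1 (F (i + 1) * (F i)⁻¹)).1 * (ρ'.1 (F i * y)).1) *ᵥ u
    rw [← rep_mul_coe, mul_assoc, inv_mul_cancel_left]
  have hself : ∀ (y : Γ) (u : Fin d → ℂ), (ρ'.1 (y * y⁻¹)).1 *ᵥ u = u := by
    intro y u
    rw [mul_inv_cancel, rep_one]
    exact Matrix.one_mulVec u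
  have key := chain (p := p) (q := q) (A := A) (A' := A') (M := M1) (δ := C * Real.exp (-a * T))
    (ε := ε) (v := v) (w := w) (N := n)
    (fun i u => apply_nonneg _ _) (fun i u => apply_nonneg _ _)
    (by
      intro i u h1 h2
      have h3 := hN0 _ (hxm i) _ h1
      have h4 := hN0 _ (hxm i) _ h2
      rw [h3, sub_zero] at h4
      exact h4)
    hM10 (by positivity) hT (by positivity) hεM
    (by
      intro i u
      change N (x i) (P (x i) *ᵥ u) ≤ M1 * N (x (i + 1)) (P (x (i + 1)) *ᵥ (A i *ᵥ u))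
      rw [ePA]
      have h1 : P (x i) *ᵥ u = (ρ.1 (G i)⁻¹).1 *ᵥ (A i *ᵥ (P (x i) *ᵥ u)) := by
        rw [Matrix.mulVec_mulVec (P (x i) *ᵥ u)]
        change _ = ((ρ.1 (G i)⁻¹).1 * (ρ.1 (G i)).1) *ᵥ _
        rw [rep_inv_mul_coe, Matrix.one_mulVec]
      set y := A i *ᵥ (P (x i) *ᵥ u) with hy
      have h2 : mn (ρ.1 (G i)⁻¹).1 ≤ M2' := (hM2 ⟨G i, hGH i, rfl⟩).trans (le_max_left _ _)
      calc N (x i) (P (x i) *ᵥ u) ≤ M * ‖P (x i) *ᵥ u‖ := ((hbd i).2 _).1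
        _ ≤ M * (M2' * ‖y‖) := by
          refine mul_le_mul_of_nonneg_left ?_ hM0.le
          rw [h1]
          exact (norm_mulVec_le _ _).trans (mul_le_mul_of_nonneg_right h2 (norm_nonneg _))
        _ ≤ M * (M2' * (M * N (x (i + 1)) y)) := by
          refine mul_le_mul_of_nonneg_left ?_ hM0.le
          exact mul_le_mul_of_nonneg_left ((hbd (i + 1)).2 _).2 hM2'0.le
        _ = M1 * N (x (i + 1)) y := by rw [hM1def]; ring)
    (by
      intro i v w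
      change N (x (i + 1)) (A i *ᵥ w - P (x (i + 1)) *ᵥ (A i *ᵥ w)) * N (x i) (P (x i) *ᵥ v) ≤
        C * Real.exp (-a * T) * (N (x (i + 1)) (P (x (i + 1)) *ᵥ (A i *ᵥ v)) *
          N (x i) (w - P (x i) *ᵥ w))
      rw [ePA, ePA, ← Matrix.mulVec_sub]
      change N (x (i + 1)) ((ρ.1 (G i)).1 *ᵥ _) * _ ≤ _ * (N (x (i + 1)) ((ρ.1 (G i)).1 *ᵥ _) * _)
      rw [e2, e2]
      have hPP := (hPr _ (hxm i)).1
      have h1 := hdom _ (hxm i) (P (x i) *ᵥ v) (w - P (x i) *ᵥ w)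
        (by rw [Matrix.mulVec_mulVec, hPP])
        (by rw [Matrix.mulVec_sub, Matrix.mulVec_mulVec, hPP, sub_self]) T' hT'0
      refine h1.trans (mul_le_mul_of_nonneg_right ?_ (mul_nonneg (apply_nonneg _ _) (apply_nonneg _ _)))
      refine mul_le_mul_of_nonneg_left (Real.exp_le_exp.2 ?_) hC.le
      nlinarith)
    (fun i u => (step_estimates hM1 hη₀0.le (hbd (i + 1)).1 (fun v => ((hbd (i + 1)).2 v).1)
      (fun v => ((hbd i).2 v).2) (hdiff i) u).1)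
    (fun i u => (step_estimates hM1 hη₀0.le (hbd (i + 1)).1 (fun v => ((hbd (i + 1)).2 v).1)
      (fun v => ((hbd i).2 v).2) (hdiff i) u).2)
    (fun i => hstep _ _ i) (fun i => hstep _ _ i)
    (by
      change N (x 0) ((ρ'.1 (F 0 * (F 0)⁻¹)).1 *ᵥ v₀ - P (x 0) *ᵥ ((ρ'.1 (F 0 * (F 0)⁻¹)).1 *ᵥ v₀)) = 0
      rw [hself, hv₀', sub_self, map_zero])
    (by
      change (ρ'.1 (F 0 * (F 0)⁻¹)).1 *ᵥ v₀ ≠ 0
      rwa [hself])
    (by
      change N (x n) (P (x n) *ᵥ ((ρ'.1 (F n * (F n)⁻¹)).1 *ᵥ wₙ)) = 0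
      rw [hself, hwₙ', map_zero])
    (by
      intro i h0
      apply hwₙ
      have h1 : (ρ'.1 (F i * (F n)⁻¹)⁻¹).1 *ᵥ w i = wₙ := by
        change (ρ'.1 (F i * (F n)⁻¹)⁻¹).1 *ᵥ ((ρ'.1 (F i * (F n)⁻¹)).1 *ᵥ wₙ) = wₙ
        rw [Matrix.mulVec_mulVec, rep_inv_mul_coe, Matrix.one_mulVec]
      rw [← h1, h0, Matrix.mulVec_zero])
  -- conclusion
  set Q := (ρ'.1 (F n * (F 0)⁻¹)).1 with hQ
  have hFn : F n = f (c.1 t) := by
    change f (c.1 (n * T')) = _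
    rw [hT', mul_div_cancel₀ _ hn0.ne']
  have hF0 : F 0 = f (c.1 0) := by
    change f (c.1 ((0 : ℕ) * T')) = _
    rw [Nat.cast_zero, zero_mul]
  rw [← hFn, ← hF0]
  change (2 : ℝ) ^ n ≤ _ * mn Q ^ d
  have hw0 : w 0 ≠ 0 := by
    intro h0
    apply hwₙ
    have h1 : (ρ'.1 (F 0 * (F n)⁻¹)⁻¹).1 *ᵥ w 0 = wₙ := by
      change (ρ'.1 (F 0 * (F n)⁻¹)⁻¹).1 *ᵥ ((ρ'.1 (F 0 * (F n)⁻¹)).1 *ᵥ wₙ) = wₙ
      rw [Matrix.mulVec_mulVec, rep_inv_mul_coe, Matrix.one_mulVec]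
    rw [← h1, h0, Matrix.mulVec_zero]
  have hQw : Q *ᵥ w 0 = wₙ := by
    change Q *ᵥ ((ρ'.1 (F 0 * (F n)⁻¹)).1 *ᵥ wₙ) = wₙ
    rw [Matrix.mulVec_mulVec, hQ, ← rep_mul_coe]
    have : F n * (F 0)⁻¹ * (F 0 * (F n)⁻¹) = 1 := by group
    rw [this, rep_one]
    exact Matrix.one_mulVec _
  have k1 : ‖wₙ‖ ≤ M * q n (w n) := by
    have h1 : q n (w n) = N (x n) wₙ := by
      change N (x n) ((ρ'.1 (F n * (F n)⁻¹)).1 *ᵥ wₙ - P (x n) *ᵥ ((ρ'.1 (F n * (F n)⁻¹)).1 *ᵥ wₙ)) = _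
      rw [hself, hwₙ', sub_zero]
    rw [h1]
    exact ((hbd n).2 _).2
  have k2 : ‖v₀‖ ≤ M * p 0 (v 0) := by
    have h1 : p 0 (v 0) = N (x 0) v₀ := by
      change N (x 0) (P (x 0) *ᵥ ((ρ'.1 (F 0 * (F 0)⁻¹)).1 *ᵥ v₀)) = _
      rw [hself, hv₀']
    rw [h1]
    exact ((hbd 0).2 _).2
  have k3 : p n (v n) ≤ M * (M * (mn Q * ‖v₀‖)) := by
    change N (x n) (P (x n) *ᵥ (Q *ᵥ v₀)) ≤ _
    refine ((hbd n).2 _).1.trans (mul_le_mul_of_nonneg_left ?_ hM0.le)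
    refine (norm_mulVec_le _ _).trans (mul_le_mul (hbd n).1 (norm_mulVec_le _ _) (norm_nonneg _) hM0.le)
  have k4 : q 0 (w 0) ≤ M * (‖w 0‖ + M * ‖w 0‖) := by
    change N (x 0) (w 0 - P (x 0) *ᵥ w 0) ≤ _
    refine ((hbd 0).2 _).1.trans (mul_le_mul_of_nonneg_left ?_ hM0.le)
    refine (norm_sub_le _ _).trans (add_le_add le_rfl ?_)
    exact (norm_mulVec_le _ _).trans (mul_le_mul_of_nonneg_right (hbd 0).1 (norm_nonneg _))
  have hv₀0 : 0 < ‖v₀‖ := norm_pos_iff.2 hv₀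
  have hw₀0 : 0 < ‖w 0‖ := norm_pos_iff.2 hw0
  have hQ0 : 0 ≤ mn Q := mn_nonneg _
  have k5 : ‖wₙ‖ * 2 ^ n ≤ 2 * M ^ 6 * mn Q * ‖w 0‖ := by
    have hq0 : 0 ≤ q n (w n) := apply_nonneg _ _
    have hp0 : 0 ≤ p 0 (v 0) := apply_nonneg _ _
    have hpn0 : 0 ≤ p n (v n) := apply_nonneg _ _
    have h1 : (‖wₙ‖ * 2 ^ n) * ‖v₀‖ ≤ (2 * M ^ 6 * mn Q * ‖w 0‖) * ‖v₀‖ := by
      calc (‖wₙ‖ * 2 ^ n) * ‖v₀‖ = ‖wₙ‖ * ‖v₀‖ * 2 ^ n := by ring
        _ ≤ (M * q n (w n)) * (M * p 0 (v 0)) * 2 ^ n := by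
          refine mul_le_mul_of_nonneg_right ?_ (by positivity)
          exact mul_le_mul k1 k2 (norm_nonneg _) (by positivity)
        _ = M * M * (q n (w n) * p 0 (v 0) * 2 ^ n) := by ring
        _ ≤ M * M * (p n (v n) * q 0 (w 0)) := mul_le_mul_of_nonneg_left key (by positivity)
        _ ≤ M * M * ((M * (M * (mn Q * ‖v₀‖))) * (M * (‖w 0‖ + M * ‖w 0‖))) := by
          refine mul_le_mul_of_nonneg_left ?_ (by positivity)
          exact mul_le_mul k3 k4 (apply_nonneg _ _) (by positivity)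
        _ = (M ^ 5 + M ^ 6) * (mn Q * ‖w 0‖ * ‖v₀‖) := by ring
        _ ≤ (M ^ 6 + M ^ 6) * (mn Q * ‖w 0‖ * ‖v₀‖) := by
          refine mul_le_mul_of_nonneg_right ?_ (by positivity)
          have : M ^ 5 ≤ M ^ 6 := pow_le_pow_right₀ hM1 (by norm_num)
          linarith
        _ = _ := by ring
    exact le_of_mul_le_mul_right h1 hv₀0
  have h2n : (0 : ℝ) < 2 ^ n := by positivity
  have k6 := det_trick (Q := Q) (ρ'.1 (F n * (F 0)⁻¹)).2 hw0 (τ := 2 ^ n) (L := 2 * M ^ 6 * mn Q) h2n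
    (by
      intro i j
      refine (entry_le_mn Q i j).trans ?_
      have h1 : 1 ≤ M ^ 6 := one_le_pow₀ hM1
      nlinarith)
    (by
      rw [hQw, mul_assoc, inv_mul_eq_div, le_div_iff₀ h2n]
      exact k5)
  rwa [mul_pow, ← mul_assoc] at k6

end Pool.Agent.N512.SA
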