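import Mathlib

/-!
# Norms of matrices, growth of powers, a lower bound for the norm of a matrix of determinant one
-/

set_option autoImplicit false

open scoped Matrix MatrixGroups
open Matrix

namespace Pool.Agent.N512.SA

variable {d : ℕ}

/-- The sum of the absolute values of the entries. -/
noncomputable def mn (A : Matrix (Fin d) (Fin d) ℂ) : ℝ := ∑ i, ∑ j, ‖A i j‖

theorem mn_nonneg (A : Matrix (Fin d) (Fin d) ℂ) : 0 ≤ mn A :=
  Finset.sum_nonneg fun _ _ => Finset.sum_nonneg fun _ _ => norm_nonneg _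

theorem row_le_mn (A : Matrix (Fin d) (Fin d) ℂ) (i : Fin d) : ∑ j, ‖A i j‖ ≤ mn A :=
  Finset.single_le_sum (f := fun i => ∑ j, ‖A i j‖)
    (fun _ _ => Finset.sum_nonneg fun _ _ => norm_nonneg _) (Finset.mem_univ i)

theorem entry_le_mn (A : Matrix (Fin d) (Fin d) ℂ) (i j : Fin d) : ‖A i j‖ ≤ mn A :=
  (Finset.single_le_sum (f := fun j => ‖A i j‖) (fun _ _ => norm_nonneg _)
    (Finset.mem_univ j)).trans (row_le_mn A i)

theorem mn_mul (A B : Matrix (Fin d) (Fin d) ℂ) : mn (A * B) ≤ mn A * mn B := by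
  calc mn (A * B) = ∑ i, ∑ k, ‖∑ j, A i j * B j k‖ := rfl
    _ ≤ ∑ i, ∑ k, ∑ j, ‖A i j‖ * ‖B j k‖ := by
      refine Finset.sum_le_sum fun i _ => Finset.sum_le_sum fun k _ => ?_
      refine (norm_sum_le _ _).trans (Finset.sum_le_sum fun j _ => ?_)
      exact (norm_mul _ _).le
    _ = ∑ i, ∑ j, ‖A i j‖ * ∑ k, ‖B j k‖ := by
      refine Finset.sum_congr rfl fun i _ => ?_
      rw [Finset.sum_comm]
      exact Finset.sum_congr rfl fun j _ => (Finset.mul_sum _ _ _).symm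
    _ ≤ ∑ i, ∑ j, ‖A i j‖ * mn B := by
      refine Finset.sum_le_sum fun i _ => Finset.sum_le_sum fun j _ => ?_
      exact mul_le_mul_of_nonneg_left (row_le_mn B j) (norm_nonneg _)
    _ = (∑ i, ∑ j, ‖A i j‖) * mn B := by
      rw [Finset.sum_mul]
      exact Finset.sum_congr rfl fun i _ => (Finset.sum_mul _ _ _).symm
    _ = mn A * mn B := rfl

theorem mn_add (A B : Matrix (Fin d) (Fin d) ℂ) : mn (A + B) ≤ mn A + mn B := by
  rw [mn, mn, mn, ← Finset.sum_add_distrib]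
  refine Finset.sum_le_sum fun i _ => ?_
  rw [← Finset.sum_add_distrib]
  exact Finset.sum_le_sum fun j _ => norm_add_le _ _

theorem norm_mulVec_le (A : Matrix (Fin d) (Fin d) ℂ) (v : Fin d → ℂ) : ‖A *ᵥ v‖ ≤ mn A * ‖v‖ := by
  rw [pi_norm_le_iff_of_nonneg (mul_nonneg (mn_nonneg A) (norm_nonneg v))]
  intro i
  calc ‖(A *ᵥ v) i‖ = ‖∑ j, A i j * v j‖ := rfl
    _ ≤ ∑ j, ‖A i j‖ * ‖v‖ := by
      refine (norm_sum_le _ _).trans (Finset.sum_le_sum fun j _ => ?_)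
      rw [norm_mul]
      exact mul_le_mul_of_nonneg_left (norm_le_pi_norm v j) (norm_nonneg _)
    _ = (∑ j, ‖A i j‖) * ‖v‖ := (Finset.sum_mul _ _ _).symm
    _ ≤ mn A * ‖v‖ := mul_le_mul_of_nonneg_right (row_le_mn A i) (norm_nonneg _)

theorem continuous_mn : Continuous (mn : Matrix (Fin d) (Fin d) ℂ → ℝ) := by
  unfold mn
  refine continuous_finsetSum _ fun i _ => continuous_finsetSum _ fun j _ => ?_
  exact continuous_norm.comp ((continuous_apply j).comp (continuous_apply i))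

/-- The powers of `A` grow at most like the powers of `B`. -/
def Gr (A : Matrix (Fin d) (Fin d) ℂ) (B : ℝ) : Prop := ∃ C, ∀ m : ℕ, mn (A ^ m) ≤ C * B ^ m

theorem gr_of_le {A : Matrix (Fin d) (Fin d) ℂ} {B : ℝ} (h : mn A ≤ B) : Gr A B := by
  have hB : 0 ≤ B := (mn_nonneg A).trans h
  refine ⟨mn (1 : Matrix (Fin d) (Fin d) ℂ), fun m => ?_⟩
  induction m with
  | zero => simp
  | succ m ih =>
    rw [pow_succ, pow_succ, ← mul_assoc]
    exact (mn_mul _ _).trans (mul_le_mul ih h (mn_nonneg _)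
      (mul_nonneg (mn_nonneg _) (pow_nonneg hB _)))

theorem gr_conj {A : SL(d, ℂ)} {B : ℝ} (H : SL(d, ℂ)) (h : Gr A.1 B) :
    Gr (H * A * H⁻¹ : SL(d, ℂ)).1 B := by
  obtain ⟨C, hC⟩ := h
  refine ⟨mn H.1 * C * mn (H⁻¹ : SL(d, ℂ)).1, fun m => ?_⟩
  have e : (H * A * H⁻¹ : SL(d, ℂ)).1 ^ m = H.1 * A.1 ^ m * (H⁻¹ : SL(d, ℂ)).1 := by
    have : (H * A * H⁻¹) ^ m = H * A ^ m * H⁻¹ := conj_pow
    have h2 := congrArg (fun X : SL(d, ℂ) => X.1) this
    exact h2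
  rw [e]
  calc mn (H.1 * A.1 ^ m * (H⁻¹ : SL(d, ℂ)).1) ≤ mn (H.1 * A.1 ^ m) * mn (H⁻¹ : SL(d, ℂ)).1 :=
        mn_mul _ _
    _ ≤ (mn H.1 * (C * B ^ m)) * mn (H⁻¹ : SL(d, ℂ)).1 := by
      refine mul_le_mul_of_nonneg_right ?_ (mn_nonneg _)
      exact (mn_mul _ _).trans (mul_le_mul_of_nonneg_left (hC m) (mn_nonneg _))
    _ = _ := by ring

/-- A matrix of determinant one with a strongly contracted vector has a large entry. -/
theorem det_trick {Q : Matrix (Fin d) (Fin d) ℂ} (hdet : Q.det = 1) {w : Fin d → ℂ} (hw : w ≠ 0)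
    {τ L : ℝ} (hτ : 0 < τ) (hL : ∀ i j, ‖Q i j‖ ≤ L) (hQw : ‖Q *ᵥ w‖ ≤ τ⁻¹ * L * ‖w‖) :
    τ ≤ d.factorial * L ^ d := by
  have hne : Nonempty (Fin d) := by
    by_contra h
    rw [not_nonempty_iff] at h
    exact hw (Subsingleton.elim _ _)
  obtain ⟨j, hj⟩ := Finite.exists_max (fun j => ‖w j‖)
  have hwj : ‖w‖ = ‖w j‖ :=
    le_antisymm ((pi_norm_le_iff_of_nonneg (norm_nonneg _)).2 hj) (norm_le_pi_norm w j)
  have hw0 : 0 < ‖w‖ := norm_pos_iff.2 hw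
  set s : ℝ := τ⁻¹ * ‖w‖ with hs
  have hs0 : 0 < s := mul_pos (inv_pos.2 hτ) hw0
  have hsC : (s : ℂ) ≠ 0 := by exact_mod_cast hs0.ne'
  have h1 : w j = (Q.updateCol j (Q *ᵥ w)).det := by
    have h2 : Q.cramer (Q *ᵥ w) = w := by
      rw [Matrix.cramer_eq_adjugate_mulVec, Matrix.mulVec_mulVec, Matrix.adjugate_mul, hdet, one_smul,
        Matrix.one_mulVec]
    rw [← Matrix.cramer_apply, h2]
  have h2 : Q *ᵥ w = (s : ℂ) • ((s : ℂ)⁻¹ • (Q *ᵥ w)) := by rw [smul_smul, mul_inv_cancel₀ hsC, one_smul]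
  rw [h2, Matrix.det_updateCol_smul] at h1
  have h3 : ‖(Q.updateCol j ((s : ℂ)⁻¹ • (Q *ᵥ w))).det‖ ≤ d.factorial * L ^ d := by
    have h4 := Matrix.det_le (A := Q.updateCol j ((s : ℂ)⁻¹ • (Q *ᵥ w)))
      (abv := NormedField.toAbsoluteValue ℂ) (x := L) (by
        intro i i'
        change ‖(Q.updateCol j ((s : ℂ)⁻¹ • (Q *ᵥ w))) i i'‖ ≤ L
        by_cases h : i' = j
        · rw [h, Matrix.updateCol_self, Pi.smul_apply, smul_eq_mul, norm_mul, norm_inv,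
            Complex.norm_real, Real.norm_of_nonneg hs0.le, inv_mul_le_iff₀ hs0]
          refine (norm_le_pi_norm _ i).trans (hQw.trans (le_of_eq ?_))
          rw [hs]; ring
        · rw [Matrix.updateCol_ne h]
          exact hL i i')
    change ‖(Q.updateCol j ((s : ℂ)⁻¹ • (Q *ᵥ w))).det‖ ≤ _ at h4
    simpa [nsmul_eq_mul] using h4
  have h5 : ‖w‖ ≤ s * (d.factorial * L ^ d) := by
    rw [hwj, h1, norm_mul, Complex.norm_real, Real.norm_of_nonneg hs0.le]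
    exact mul_le_mul_of_nonneg_left h3 hs0.le
  rw [hs] at h5
  have h6 : ‖w‖ * 1 ≤ ‖w‖ * (τ⁻¹ * (d.factorial * L ^ d)) := by linarith
  have h7 := le_of_mul_le_mul_left h6 hw0
  rw [inv_mul_eq_div, le_div_iff₀ hτ] at h7
  linarith

end Pool.Agent.N512.SA
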