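import Pool.Agent.N512.SA.Compl

/-!
# The representation `m · std ⊕ n · trivial` is not simple `k`-Anosov for other values of `k`
-/

set_option autoImplicit false

open scoped MatrixGroups UpperHalfPlane Matrix Topology Kronecker
open UpperHalfPlane

namespace Pool.Agent.N512.SA

open Pool.Agent.Y473.SA

variable {m n d : ℕ} (e : (Fin 2 × Fin m) ⊕ Fin n ≃ Fin d)

/-- The eigenvalues of the two parts of the splitting over a closed geodesic are separated. -/
theorem eig_lt {Γ : Subgroup SL(2, ℝ)} {ρ : Rep Γ d} {P : UT → Matrix (Fin d) (Fin d) ℂ}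
    {N : UT → Seminorm ℂ (Fin d → ℂ)} {C a : ℝ} (ha : 0 < a)
    (hN0 : ∀ c ∈ birmanSeries Γ, ∀ v, N c v = 0 → v = 0)
    (hNe : ∀ c ∈ birmanSeries Γ, ∀ (g : Γ) v, N (act g c) ((ρ.1 g).1 *ᵥ v) = N c v)
    (hdom : ∀ c ∈ birmanSeries Γ, ∀ v w, P c *ᵥ v = v → P c *ᵥ w = 0 → ∀ t, 0 ≤ t →
      N (flow t c) w * N c v ≤ C * Real.exp (-a * t) * (N (flow t c) v * N c w))
    {c : UT} (hc : c ∈ birmanSeries Γ) {g : Γ} {l : ℝ} (hl : 0 < l) (hg : act g c = flow l c)
    {μ ν : ℂ} {v w : Fin d → ℂ} (hv : v ≠ 0) (hw : w ≠ 0) (hPv : P c *ᵥ v = v) (hPw : P c *ᵥ w = 0)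
    (hμ : (ρ.1 g).1 *ᵥ v = μ • v) (hν : (ρ.1 g).1 *ᵥ w = ν • w) : ‖μ‖ < ‖ν‖ := by
  have key : ∀ (u : Fin d → ℂ) (μ : ℂ), (ρ.1 g).1 *ᵥ u = μ • u → ∀ j : ℕ,
      ‖μ‖ ^ j * N (flow (j * l) c) u = N c u := by
    intro u μ hu j
    have h1 : (ρ.1 (g ^ j)).1 *ᵥ u = μ ^ j • u := by
      rw [rep_pow, Matrix.SpecialLinearGroup.coe_pow]
      induction j with
      | zero => rw [pow_zero, pow_zero, Matrix.one_mulVec, one_smul]
      | succ j ih => rw [pow_succ, ← Matrix.mulVec_mulVec, hu, Matrix.mulVec_smul, ih, smul_smul,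
          pow_succ, mul_comm]
    have h2 := hNe c hc (g ^ j) u
    have h3 := zpow_axis hg j
    rw [zpow_natCast] at h3
    rw [h1, h3, map_smul_eq_mul, norm_pow] at h2
    simpa using h2
  have hv0 : 0 < N c v := lt_of_le_of_ne (apply_nonneg _ _) fun h => hv (hN0 c hc v h.symm)
  have hw0 : 0 < N c w := lt_of_le_of_ne (apply_nonneg _ _) fun h => hw (hN0 c hc w h.symm)
  by_contra hlt
  push Not at hlt
  have hμ0 : 0 < ‖μ‖ := by
    rcases (norm_nonneg μ).lt_or_eq with h | h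
    · exact h
    · exfalso
      have := key v μ hμ 1
      rw [← h, pow_one, zero_mul] at this
      linarith
  have h1 : ∀ j : ℕ, Real.exp (a * (j * l)) ≤ C := by
    intro j
    have h2 := hdom c hc v w hPv hPw (j * l) (by positivity)
    have h3 := key v μ hμ j
    have h4 := key w ν hν j
    set x := N (flow (j * l) c) v
    set y := N (flow (j * l) c) w
    have hx0 : 0 ≤ x := apply_nonneg _ _
    have hy0 : 0 ≤ y := apply_nonneg _ _
    have h5 : N c w ≤ ‖μ‖ ^ j * y := by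
      rw [← h4]
      exact mul_le_mul_of_nonneg_right (pow_le_pow_left₀ (norm_nonneg _) hlt j) hy0
    have h6 : N c w * N c v ≤ (C * Real.exp (-a * (j * l))) * (N c w * N c v) := by
      calc N c w * N c v ≤ (‖μ‖ ^ j * y) * N c v := mul_le_mul_of_nonneg_right h5 hv0.le
        _ = ‖μ‖ ^ j * (y * N c v) := by ring
        _ ≤ ‖μ‖ ^ j * (C * Real.exp (-a * (j * l)) * (x * N c w)) :=
          mul_le_mul_of_nonneg_left h2 (by positivity)
        _ = (C * Real.exp (-a * (j * l))) * (N c w * (‖μ‖ ^ j * x)) := by ring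
        _ = _ := by rw [h3]
    have h7 : 1 ≤ C * Real.exp (-a * (j * l)) := by
      have h8 : 0 < N c w * N c v := mul_pos hw0 hv0
      have h9 : 1 * (N c w * N c v) ≤ (C * Real.exp (-a * (j * l))) * (N c w * N c v) := by
        rw [one_mul]; exact h6
      exact le_of_mul_le_mul_right h9 h8
    have h8 : Real.exp (-a * (j * l)) * Real.exp (a * (j * l)) = 1 := by
      rw [← Real.exp_add]; simp
    calc Real.exp (a * (j * l)) = 1 * Real.exp (a * (j * l)) := (one_mul _).symm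
      _ ≤ (C * Real.exp (-a * (j * l))) * Real.exp (a * (j * l)) :=
        mul_le_mul_of_nonneg_right h7 (Real.exp_pos _).le
      _ = C := by rw [mul_assoc, h8, mul_one]
  obtain ⟨j, hj⟩ := exists_nat_gt (C / (a * l))
  rw [div_lt_iff₀ (by positivity)] at hj
  have h2 := h1 j
  have h3 := Real.add_one_le_exp (a * (j * l))
  nlinarith

theorem exists_mulVec_ne {A B : Matrix (Fin d) (Fin d) ℂ} (h : A ≠ B) : ∃ x, A *ᵥ x ≠ B *ᵥ x := by
  by_contra hcon
  push Not at hcon
  exact h (Matrix.ext_of_mulVec_single fun i => hcon _)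

theorem off_zero {F G M P : Matrix (Fin d) (Fin d) ℂ} {μ ν : ℂ} (hμν : μ ≠ ν) (hF : F * M = μ • F)
    (hG : M * G = ν • G) (hPM : P * M = M * P) : F * P * G = 0 := by
  have h1 : μ • (F * P * G) = ν • (F * P * G) := by
    calc μ • (F * P * G) = F * M * P * G := by rw [hF]; simp only [Matrix.smul_mul]
      _ = F * (M * P) * G := by simp only [mul_assoc]
      _ = F * P * (M * G) := by rw [← hPM]; simp only [mul_assoc]
      _ = ν • (F * P * G) := by rw [hG]; simp only [Matrix.mul_smul]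
  have h2 : (μ - ν) • (F * P * G) = 0 := by rw [sub_smul, h1, sub_self]
  exact (smul_eq_zero.1 h2).resolve_left (sub_ne_zero.2 hμν)

/-- The representation `m · std ⊕ n · trivial` is simple `k`-Anosov only for the obvious `k`. -/
theorem blkRep_not_anosov {Γ : Subgroup SL(2, ℝ)} (hΓ : IsClosedSurface Γ) {k : ℕ} (hm : 1 ≤ m)
    (hk0 : k ≠ 0) (hkm : k ≠ m) (hkmn : k ≠ m + n) (hkd : k ≠ d) :
    ¬ IsSimpleAnosov k (blkRep e Γ) := by
  rintro ⟨P, N, C, a, hC, ha, hPc, hPr, hPe, hPf, hNc, hN0, hNe, hdom⟩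
  obtain ⟨g, c, l, hc, hgc⟩ := hΓ.exists_simple hΓ.exists_ne_one
  have hl := hc.1
  have hcm := simple_mem hc
  obtain ⟨p, rfl⟩ := exists_geod c
  obtain ⟨lam, hlam, h00, h11, h01, h10⟩ := diag_of_axis hgc
  have hcm' : geod p ∈ birmanSeries Γ := hcm
  set P₀ := P (geod p) with hP₀
  set M := ((blkRep e Γ).1 g).1 with hM
  obtain ⟨hPP, hPk⟩ := hPr _ hcm
  have hPM : P₀ * M = M * P₀ := by
    have h1 := hPe _ hcm g
    rw [hgc, hPf _ hcm] at h1
    exact h1
  have hl0 : lam ≠ 0 := by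
    rintro rfl
    rw [zero_pow two_ne_zero] at hlam
    exact (Real.exp_pos _).ne hlam
  have habs : 1 < |lam| := by
    by_contra h
    push Not at h
    have h1 : lam ^ 2 ≤ 1 := by rw [← sq_abs]; exact pow_le_one₀ (abs_nonneg _) h
    rw [hlam] at h1
    have := Real.one_lt_exp_iff.2 hl
    linarith
  have hinv : |lam|⁻¹ < 1 := inv_lt_one_of_one_lt₀ habs
  have lamC : (lam : ℂ) ≠ 0 := by exact_mod_cast hl0
  have n0 : ‖(lam : ℂ)‖ = |lam| := by rw [Complex.norm_real, Real.norm_eq_abs]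
  have n1 : ‖(lam : ℂ)⁻¹‖ = |lam|⁻¹ := by rw [norm_inv, n0]
  have ne01 : (lam : ℂ) ≠ (lam : ℂ)⁻¹ := by
    intro h
    have := congrArg norm h
    rw [n0, n1] at this
    linarith
  have ne02 : (lam : ℂ) ≠ 1 := by
    intro h
    have := congrArg norm h
    rw [n0, norm_one] at this
    linarith
  have ne12 : (lam : ℂ)⁻¹ ≠ 1 := by
    intro h
    have := congrArg norm h
    rw [n1, norm_one] at this
    linarith
  -- the spectral projections
  set F0 := Blk e (cx p * E0 * cx p⁻¹) 0 with hF0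
  set F1 := Blk e (cx p * E1 * cx p⁻¹) 0 with hF1
  set F2 := Blk e 0 1 with hF2
  have hsum : F0 + F1 + F2 = 1 := by
    rw [hF0, hF1, hF2, blk_add, blk_add, ← add_mul, ← mul_add, E0_add_E1, mul_one, cx_mul_inv,
      add_zero, zero_add, zero_add, blk_one]
  set D := cx (p⁻¹ * (g : SL(2, ℝ)) * p) with hD
  have hDm : D = !![(lam : ℂ), 0; 0, (lam : ℂ)⁻¹] := by
    ext i j
    rw [hD, cx_apply]
    fin_cases i <;> fin_cases j <;> simp [h00, h11, h01, h10]
  have hgD : cx g = cx p * D * cx p⁻¹ := by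
    rw [hD, ← cx_mul, ← cx_mul]
    congr 1
    group
  have conj_mul : ∀ X Y : Matrix (Fin 2) (Fin 2) ℂ, (cx p * X * cx p⁻¹) * (cx p * Y * cx p⁻¹) =
      cx p * (X * Y) * cx p⁻¹ := by
    intro X Y
    calc (cx p * X * cx p⁻¹) * (cx p * Y * cx p⁻¹) = cx p * X * (cx p⁻¹ * cx p) * Y * cx p⁻¹ := by
          simp only [mul_assoc]
      _ = _ := by rw [cx_inv_mul, mul_one]; simp only [mul_assoc]
  have hMb : M = Blk e (cx p * D * cx p⁻¹) 1 := by rw [hM, blkRep_apply, hgD]
  have hDE0 : D * E0 = (lam : ℂ) • E0 := by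
    rw [hDm]; ext i j; fin_cases i <;> fin_cases j <;> simp [E0]
  have hE0D : E0 * D = (lam : ℂ) • E0 := by
    rw [hDm]; ext i j; fin_cases i <;> fin_cases j <;> simp [E0]
  have hDE1 : D * E1 = (lam : ℂ)⁻¹ • E1 := by
    rw [hDm]; ext i j; fin_cases i <;> fin_cases j <;> simp [E1]
  have hE1D : E1 * D = (lam : ℂ)⁻¹ • E1 := by
    rw [hDm]; ext i j; fin_cases i <;> fin_cases j <;> simp [E1]
  have pull : ∀ (c : ℂ) (X : Matrix (Fin 2) (Fin 2) ℂ), Blk e (cx p * (c • X) * cx p⁻¹) 0 =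
      c • Blk e (cx p * X * cx p⁻¹) 0 := by
    intro c X
    rw [blk_smul, mul_zero, Matrix.mul_smul, Matrix.smul_mul]
  have M0 : M * F0 = (lam : ℂ) • F0 := by
    rw [hMb, hF0, blk_mul, conj_mul, hDE0, mul_zero, pull]
  have M0' : F0 * M = (lam : ℂ) • F0 := by
    rw [hMb, hF0, blk_mul, conj_mul, hE0D, zero_mul, pull]
  have M1 : M * F1 = (lam : ℂ)⁻¹ • F1 := by
    rw [hMb, hF1, blk_mul, conj_mul, hDE1, mul_zero, pull]
  have M1' : F1 * M = (lam : ℂ)⁻¹ • F1 := by
    rw [hMb, hF1, blk_mul, conj_mul, hE1D, zero_mul, pull]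
  have M2 : M * F2 = (1 : ℂ) • F2 := by
    rw [hMb, hF2, blk_mul, mul_zero, one_mul, one_smul]
  have M2' : F2 * M = (1 : ℂ) • F2 := by
    rw [hMb, hF2, blk_mul, zero_mul, one_mul, one_smul]
  have expand : ∀ X : Matrix (Fin d) (Fin d) ℂ, X = F0 * X + F1 * X + F2 * X := by
    intro X
    rw [← add_mul, ← add_mul, hsum, one_mul]
  have expand' : ∀ X : Matrix (Fin d) (Fin d) ℂ, X = X * F0 + X * F1 + X * F2 := by
    intro X
    rw [← mul_add, ← mul_add, hsum, mul_one]
  have c0 : P₀ * F0 = F0 * P₀ := by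
    rw [expand (P₀ * F0), expand' (F0 * P₀), ← mul_assoc, ← mul_assoc, ← mul_assoc,
      off_zero ne01.symm M1' M0 hPM, off_zero ne02.symm M2' M0 hPM, off_zero ne01 M0' M1 hPM,
      off_zero ne02 M0' M2 hPM]
  have c1 : P₀ * F1 = F1 * P₀ := by
    rw [expand (P₀ * F1), expand' (F1 * P₀), ← mul_assoc, ← mul_assoc, ← mul_assoc,
      off_zero ne01 M0' M1 hPM, off_zero ne12.symm M2' M1 hPM, off_zero ne01.symm M1' M0 hPM,
      off_zero ne12 M1' M2 hPM]
  have c2 : P₀ * F2 = F2 * P₀ := by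
    rw [expand (P₀ * F2), expand' (F2 * P₀), ← mul_assoc, ← mul_assoc, ← mul_assoc,
      off_zero ne02 M0' M2 hPM, off_zero ne12 M1' M2 hPM, off_zero ne02.symm M2' M0 hPM,
      off_zero ne12.symm M2' M1 hPM]
  -- each spectral subspace lies in one part
  have dich : ∀ (F : Matrix (Fin d) (Fin d) ℂ) (μ : ℂ), M * F = μ • F → P₀ * F = 0 ∨ P₀ * F = F := by
    intro F μ hF
    by_contra hcon
    rw [not_or] at hcon
    obtain ⟨x, hx⟩ := exists_mulVec_ne hcon.1
    obtain ⟨y, hy⟩ := exists_mulVec_ne hcon.2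
    rw [Matrix.zero_mulVec] at hx
    have h1 : F *ᵥ y - (P₀ * F) *ᵥ y ≠ 0 := sub_ne_zero.2 hy.symm
    have hMPF : M * (P₀ * F) = μ • (P₀ * F) := by
      rw [← mul_assoc, ← hPM, mul_assoc, hF, Matrix.mul_smul]
    refine lt_irrefl _ (eig_lt ha hN0 hNe hdom hcm' hl hgc hx h1 (μ := μ) (ν := μ) ?_ ?_ ?_ ?_)
    · change P₀ *ᵥ _ = _
      rw [Matrix.mulVec_mulVec, ← mul_assoc, hPP]
    · change P₀ *ᵥ _ = _
      rw [Matrix.mulVec_sub, Matrix.mulVec_mulVec, Matrix.mulVec_mulVec, ← mul_assoc, hPP, sub_self]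
    · change M *ᵥ _ = _
      rw [Matrix.mulVec_mulVec, hMPF, Matrix.smul_mulVec]
    · change M *ᵥ _ = _
      rw [Matrix.mulVec_sub, Matrix.mulVec_mulVec, Matrix.mulVec_mulVec, hMPF, hF, Matrix.smul_mulVec,
        Matrix.smul_mulVec, smul_sub]
  have order : ∀ (F G : Matrix (Fin d) (Fin d) ℂ) (μ ν : ℂ), M * F = μ • F → M * G = ν • G →
      F ≠ 0 → G ≠ 0 → P₀ * F = F → P₀ * G = 0 → ‖μ‖ < ‖ν‖ := by
    intro F G μ ν hF hG hF0 hG0 hPF hPG
    obtain ⟨x, hx⟩ := exists_mulVec_ne hF0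
    obtain ⟨y, hy⟩ := exists_mulVec_ne hG0
    rw [Matrix.zero_mulVec] at hx hy
    refine eig_lt ha hN0 hNe hdom hcm' hl hgc hx hy ?_ ?_ ?_ ?_
    · change P₀ *ᵥ _ = _
      rw [Matrix.mulVec_mulVec, hPF]
    · change P₀ *ᵥ _ = _
      rw [Matrix.mulVec_mulVec, hPG, Matrix.zero_mulVec]
    · change M *ᵥ _ = _
      rw [Matrix.mulVec_mulVec, hF, Matrix.smul_mulVec]
    · change M *ᵥ _ = _
      rw [Matrix.mulVec_mulVec, hG, Matrix.smul_mulVec]
  -- traces
  have t0 : F0.trace = m := by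
    rw [hF0, blk_trace, Matrix.trace_mul_comm, ← mul_assoc, cx_inv_mul, one_mul]
    simp [E0, Matrix.trace_fin_two]
  have t1 : F1.trace = m := by
    rw [hF1, blk_trace, Matrix.trace_mul_comm, ← mul_assoc, cx_inv_mul, one_mul]
    simp [E1, Matrix.trace_fin_two]
  have t2 : F2.trace = n := by
    rw [hF2, blk_trace]
    simp
  have hmC : (m : ℂ) ≠ 0 := by exact_mod_cast (by omega : m ≠ 0)
  have nz0 : F0 ≠ 0 := by
    intro h
    rw [h, Matrix.trace_zero] at t0
    exact hmC t0.symm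
  have nz1 : F1 ≠ 0 := by
    intro h
    rw [h, Matrix.trace_zero] at t1
    exact hmC t1.symm
  have hk : (k : ℂ) = P₀.trace := by rw [← rank_eq_trace hPP, hPk]
  have hdec := expand' P₀
  rcases dich F0 _ M0 with h0 | h0
  · rcases dich F1 _ M1 with h1 | h1
    · -- nothing in the image
      have h2 : P₀ * F2 = 0 := by
        rcases dich F2 _ M2 with h2 | h2
        · exact h2
        · by_cases hz : F2 = 0
          · rw [hz, mul_zero]
          · exfalso
            have := order F2 F1 _ _ M2 M1 hz nz1 h2 h1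
            rw [n1, norm_one] at this
            linarith
      rw [h0, h1, h2] at hdec
      rw [hdec] at hk
      simp only [add_zero, Matrix.trace_zero] at hk
      exact hk0 (by exact_mod_cast hk)
    · rcases dich F2 _ M2 with h2 | h2
      · rw [h0, h1, h2, zero_add, add_zero] at hdec
        rw [hdec, t1] at hk
        exact hkm (by exact_mod_cast hk)
      · rw [h0, h1, h2, zero_add] at hdec
        rw [hdec, Matrix.trace_add, t1, t2] at hk
        exact hkmn (by exact_mod_cast hk)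
  · have h1 : P₀ * F1 = F1 := by
      rcases dich F1 _ M1 with h1 | h1
      · exfalso
        have := order F0 F1 _ _ M0 M1 nz0 nz1 h0 h1
        rw [n0, n1] at this
        linarith
      · exact h1
    have h2 : P₀ * F2 = F2 := by
      rcases dich F2 _ M2 with h2 | h2
      · by_cases hz : F2 = 0
        · rw [hz, mul_zero]
        · exfalso
          have := order F0 F2 _ _ M0 M2 nz0 hz h0 h2
          rw [n0, norm_one] at this
          linarith
      · exact h2
    rw [h0, h1, h2, hsum] at hdec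
    rw [hdec, Matrix.trace_one, Fintype.card_fin] at hk
    exact hkd (by exact_mod_cast hk)

end Pool.Agent.N512.SA
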