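import Pool.Agent.Y473.SA.OutFin

/-!
# Sets of automorphisms of a surface group with bounded traces are finite modulo inner automorphisms
-/

set_option autoImplicit false

open scoped MatrixGroups UpperHalfPlane Matrix
open UpperHalfPlane

namespace Pool.Agent.N512.SA

open Pool.Agent.Y473.SA

variable {Γ : Subgroup SL(2, ℝ)}

/-- The displacement of the base point. -/
theorem cosh_dist_I (X : SL(2, ℝ)) : Real.cosh (dist I (X • I)) =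
    (X 0 0 ^ 2 + X 0 1 ^ 2 + X 1 0 ^ 2 + X 1 1 ^ 2) / 2 := by
  have hdet := sl_det X
  have hre : (UpperHalfPlane.I).re = 0 := UpperHalfPlane.I_re
  have him : (UpperHalfPlane.I).im = 1 := UpperHalfPlane.I_im
  rw [cosh_dist', smul_im, smul_re, hre, him]
  have hD : (X 1 0 * 0 + X 1 1) ^ 2 + (X 1 0 * 1) ^ 2 ≠ 0 := by
    intro h0
    have h1 : X 1 1 = 0 := by nlinarith [sq_nonneg (X 1 1), sq_nonneg (X 1 0)]
    have h2 : X 1 0 = 0 := by nlinarith [sq_nonneg (X 1 1), sq_nonneg (X 1 0)]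
    rw [h1, h2] at hdet
    norm_num at hdet
  set D := (X 1 0 * 0 + X 1 1) ^ 2 + (X 1 0 * 1) ^ 2 with hDdef
  have hD2 : D = X 1 1 ^ 2 + X 1 0 ^ 2 := by rw [hDdef]; ring
  have key : ((X 0 0 * 0 + X 0 1) * (X 1 0 * 0 + X 1 1) + X 0 0 * X 1 0 * 1 ^ 2) ^ 2 + 1 =
      (X 0 0 ^ 2 + X 0 1 ^ 2) * D := by
    rw [hD2]
    have : (X 0 0 * X 1 1 - X 0 1 * X 1 0) ^ 2 = 1 := by rw [hdet]; norm_num
    nlinarith [this]
  field_simp
  nlinarith [key, hD2]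

theorem cosh_dist_smul (p Y : SL(2, ℝ)) : Real.cosh (dist (p • I) (Y • p • I)) =
    ((p⁻¹ * Y * p) 0 0 ^ 2 + (p⁻¹ * Y * p) 0 1 ^ 2 + (p⁻¹ * Y * p) 1 0 ^ 2 +
      (p⁻¹ * Y * p) 1 1 ^ 2) / 2 := by
  rw [← cosh_dist_I]
  congr 1
  rw [← dist_smul p I, mul_smul, mul_smul, smul_inv_smul]

/-- Balancing the off-diagonal entries by a diagonal conjugation. -/
theorem exists_balance (B : SL(2, ℝ)) (h : B 0 1 * B 1 0 ≠ 0) :
    ∃ D : SL(2, ℝ), (∀ A : SL(2, ℝ), (D⁻¹ * A * D) 0 0 = A 0 0 ∧ (D⁻¹ * A * D) 1 1 = A 1 1 ∧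
      (A 0 1 = 0 → (D⁻¹ * A * D) 0 1 = 0) ∧ (A 1 0 = 0 → (D⁻¹ * A * D) 1 0 = 0)) ∧
      (D⁻¹ * B * D) 0 1 ^ 2 = |B 0 1 * B 1 0| ∧ (D⁻¹ * B * D) 1 0 ^ 2 = |B 0 1 * B 1 0| := by
  have h1 : B 0 1 ≠ 0 := left_ne_zero_of_mul h
  have h2 : B 1 0 ≠ 0 := right_ne_zero_of_mul h
  set x := |B 0 1| with hx
  set y := |B 1 0| with hy
  have hx0 : 0 < x := abs_pos.2 h1
  have hy0 : 0 < y := abs_pos.2 h2
  set μ := Real.sqrt (Real.sqrt (x / y)) with hμ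
  have hμ0 : 0 < μ := Real.sqrt_pos.2 (Real.sqrt_pos.2 (div_pos hx0 hy0))
  have hμ4 : μ ^ 4 = x / y := by
    have e1 : μ ^ 2 = Real.sqrt (x / y) := Real.sq_sqrt (Real.sqrt_nonneg _)
    have e2 : Real.sqrt (x / y) ^ 2 = x / y := Real.sq_sqrt (div_pos hx0 hy0).le
    calc μ ^ 4 = (μ ^ 2) ^ 2 := by ring
      _ = x / y := by rw [e1, e2]
  let D : SL(2, ℝ) := ⟨!![μ, 0; 0, μ⁻¹], by rw [Matrix.det_fin_two_of]; field_simp; ring⟩
  have d00 : D 0 0 = μ := rfl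
  have d01 : D 0 1 = 0 := rfl
  have d10 : D 1 0 = 0 := rfl
  have d11 : D 1 1 = μ⁻¹ := rfl
  obtain ⟨i1, i2, i3, i4⟩ := sl_inv_apply D
  rw [d00] at i4
  rw [d01, neg_zero] at i2
  rw [d10, neg_zero] at i3
  rw [d11] at i1
  have e : ∀ A : SL(2, ℝ), (D⁻¹ * A * D) 0 0 = A 0 0 ∧ (D⁻¹ * A * D) 1 1 = A 1 1 ∧
      (D⁻¹ * A * D) 0 1 = μ⁻¹ ^ 2 * A 0 1 ∧ (D⁻¹ * A * D) 1 0 = μ ^ 2 * A 1 0 := by
    intro A
    have hμn : μ ≠ 0 := hμ0.ne'
    refine ⟨?_, ?_, ?_, ?_⟩ <;>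
      simp only [sl_mul_apply, i1, i2, i3, i4, d00, d01, d10, d11] <;> field_simp <;> ring
  refine ⟨D, fun A => ⟨(e A).1, (e A).2.1, fun h => ?_, fun h => ?_⟩, ?_, ?_⟩
  · rw [(e A).2.2.1, h, mul_zero]
  · rw [(e A).2.2.2, h, mul_zero]
  · rw [(e B).2.2.1, abs_mul, ← hx, ← hy, mul_pow, ← sq_abs (B 0 1), ← hx]
    have : (μ⁻¹ ^ 2) ^ 2 = y / x := by
      have : (μ⁻¹ ^ 2) ^ 2 = (μ ^ 4)⁻¹ := by
        rw [← pow_mul, inv_pow]
      rw [this, hμ4, inv_div]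
    rw [this]
    field_simp
  · rw [(e B).2.2.2, abs_mul, ← hx, ← hy, mul_pow, ← sq_abs (B 1 0), ← hy]
    have : (μ ^ 2) ^ 2 = x / y := by
      rw [← pow_mul, ← hμ4]
    rw [this]
    field_simp

/-- The diagonal entries are controlled by traces. -/
theorem diag_bound {lam x y T η : ℝ} (hη : 0 < η) (hT : 0 ≤ T) (hl : η ≤ |lam - lam⁻¹|)
    (h1 : |lam| ≤ T) (h2 : |lam⁻¹| ≤ T) {S1 S2 : ℝ}
    (ht1 : |x + y| ≤ S1) (ht2 : |lam * x + lam⁻¹ * y| ≤ S2) :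
    |x| ≤ (S2 + T * S1) / η ∧ |y| ≤ (S2 + T * S1) / η := by
  have hS1 : 0 ≤ S1 := (abs_nonneg _).trans ht1
  have key1 : (lam - lam⁻¹) * x = (lam * x + lam⁻¹ * y) - lam⁻¹ * (x + y) := by ring
  have key2 : (lam - lam⁻¹) * y = lam * (x + y) - (lam * x + lam⁻¹ * y) := by ring
  constructor
  · rw [le_div_iff₀ hη]
    calc |x| * η ≤ |x| * |lam - lam⁻¹| := mul_le_mul_of_nonneg_left hl (abs_nonneg _)
      _ = |(lam - lam⁻¹) * x| := by rw [abs_mul]; ring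
      _ ≤ |lam * x + lam⁻¹ * y| + |lam⁻¹ * (x + y)| := by rw [key1]; exact abs_sub _ _
      _ ≤ S2 + T * S1 := by
        rw [abs_mul]
        have := mul_le_mul h2 ht1 (abs_nonneg _) hT
        linarith
  · rw [le_div_iff₀ hη]
    calc |y| * η ≤ |y| * |lam - lam⁻¹| := mul_le_mul_of_nonneg_left hl (abs_nonneg _)
      _ = |(lam - lam⁻¹) * y| := by rw [abs_mul]; ring
      _ ≤ |lam * (x + y)| + |lam * x + lam⁻¹ * y| := by rw [key2]; exact abs_sub _ _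
      _ ≤ S2 + T * S1 := by
        rw [abs_mul]
        have := mul_le_mul h1 ht1 (abs_nonneg _) hT
        linarith

theorem tr_mul (X Y : SL(2, ℝ)) : tr (X * Y) = X 0 0 * Y 0 0 + X 0 1 * Y 1 0 +
    (X 1 0 * Y 0 1 + X 1 1 * Y 1 1) := by
  rw [tr_eq, sl_mul_apply, sl_mul_apply]

theorem tr_comm_diag {A B : SL(2, ℝ)} {lam : ℝ} (h0 : lam ≠ 0) (a00 : A 0 0 = lam) (a11 : A 1 1 = lam⁻¹)
    (a01 : A 0 1 = 0) (a10 : A 1 0 = 0) :
    tr (A * B * A⁻¹ * B⁻¹) - 2 = -(B 0 1 * B 1 0) * (lam - lam⁻¹) ^ 2 := by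
  obtain ⟨i1, i2, i3, i4⟩ := sl_inv_apply A
  obtain ⟨j1, j2, j3, j4⟩ := sl_inv_apply B
  have hdet := sl_det B
  rw [tr_eq]
  simp only [sl_mul_apply, i1, i2, i3, i4, j1, j2, j3, j4, a00, a01, a10, a11]
  have hl : lam * lam⁻¹ = 1 := mul_inv_cancel₀ h0
  have e1 : lam⁻¹ * lam = 1 := inv_mul_cancel₀ h0
  have e2 : B 0 0 * B 1 1 = 1 + B 0 1 * B 1 0 := by linarith
  have : (lam - lam⁻¹) ^ 2 = lam ^ 2 + lam⁻¹ ^ 2 - 2 := by
    have : (lam - lam⁻¹) ^ 2 = lam ^ 2 + lam⁻¹ ^ 2 - 2 * (lam * lam⁻¹) := by ring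
    rw [this, hl]; ring
  rw [this]
  have e3 : B 1 1 * B 0 0 = 1 + B 0 1 * B 1 0 := by linarith
  ring_nf
  linear_combination (2 * lam * lam⁻¹) * e2 + (2 + 2 * (B 0 1 * B 1 0)) * hl

/-- The entries are controlled by traces. -/
theorem entries_bound {L T η κ K b00 b01 b10 b11 x00 x01 x10 x11 : ℝ} (hη : 0 < η) (hT : 0 < T)
    (hκ : 0 < κ) (hK : K = (T + T * T) / η)
    (hl : η ≤ |L - L⁻¹|) (h1 : |L| ≤ T) (h2 : |L⁻¹| ≤ T) (ht1 : |x00 + x11| ≤ T)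
    (ht2 : |L * x00 + L⁻¹ * x11| ≤ T) (ht3 : |b00 + b11| ≤ T) (ht4 : |L * b00 + L⁻¹ * b11| ≤ T)
    (ht5 : |b00 * x00 + b01 * x10 + (b10 * x01 + b11 * x11)| ≤ T)
    (ht6 : |L * b00 * x00 + L * b01 * x10 + (L⁻¹ * b10 * x01 + L⁻¹ * b11 * x11)| ≤ T)
    (hb01 : κ ≤ |b01|) (hb10 : κ ≤ |b10|) :
    |x00| ≤ K + ((T + 2 * T * (K * K) + 2 * (K * K)) + T * (T + 2 * T * (K * K) + 2 * (K * K))) / η / κ ∧
    |x01| ≤ K + ((T + 2 * T * (K * K) + 2 * (K * K)) + T * (T + 2 * T * (K * K) + 2 * (K * K))) / η / κ ∧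
    |x10| ≤ K + ((T + 2 * T * (K * K) + 2 * (K * K)) + T * (T + 2 * T * (K * K) + 2 * (K * K))) / η / κ ∧
    |x11| ≤ K + ((T + 2 * T * (K * K) + 2 * (K * K)) + T * (T + 2 * T * (K * K) + 2 * (K * K))) / η / κ := by
  have hK0 : 0 < K := by rw [hK]; positivity
  set β := T + 2 * T * (K * K) + 2 * (K * K) with hβ
  have hβ0 : 0 < β := by positivity
  have hXd : |x00| ≤ K ∧ |x11| ≤ K := by rw [hK]; exact diag_bound hη hT.le hl h1 h2 ht1 ht2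
  have hBd : |b00| ≤ K ∧ |b11| ≤ K := by rw [hK]; exact diag_bound hη hT.le hl h1 h2 ht3 ht4
  have h3 : |b01 * x10 + b10 * x01| ≤ β := by
    have e : b01 * x10 + b10 * x01 = (b00 * x00 + b01 * x10 + (b10 * x01 + b11 * x11)) -
      b00 * x00 - b11 * x11 := by ring
    rw [e]
    have i1 : |b00 * x00| ≤ K * K := by
      rw [abs_mul]; exact mul_le_mul hBd.1 hXd.1 (abs_nonneg _) hK0.le
    have i2 : |b11 * x11| ≤ K * K := by
      rw [abs_mul]; exact mul_le_mul hBd.2 hXd.2 (abs_nonneg _) hK0.le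
    have i3 := abs_sub ((b00 * x00 + b01 * x10 + (b10 * x01 + b11 * x11)) - b00 * x00) (b11 * x11)
    have i4 := abs_sub (b00 * x00 + b01 * x10 + (b10 * x01 + b11 * x11)) (b00 * x00)
    have : 0 ≤ T * (K * K) := by positivity
    rw [hβ]
    linarith
  have h4 : |L * (b01 * x10) + L⁻¹ * (b10 * x01)| ≤ β := by
    have e : L * (b01 * x10) + L⁻¹ * (b10 * x01) =
      (L * b00 * x00 + L * b01 * x10 + (L⁻¹ * b10 * x01 + L⁻¹ * b11 * x11)) - L * (b00 * x00) -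
        L⁻¹ * (b11 * x11) := by ring
    rw [e]
    have i1 : |L * (b00 * x00)| ≤ T * (K * K) := by
      rw [abs_mul, abs_mul]
      exact mul_le_mul h1 (mul_le_mul hBd.1 hXd.1 (abs_nonneg _) hK0.le) (by positivity) hT.le
    have i2 : |L⁻¹ * (b11 * x11)| ≤ T * (K * K) := by
      rw [abs_mul, abs_mul]
      exact mul_le_mul h2 (mul_le_mul hBd.2 hXd.2 (abs_nonneg _) hK0.le) (by positivity) hT.le
    have i3 := abs_sub ((L * b00 * x00 + L * b01 * x10 + (L⁻¹ * b10 * x01 + L⁻¹ * b11 * x11)) -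
      L * (b00 * x00)) (L⁻¹ * (b11 * x11))
    have i4 := abs_sub (L * b00 * x00 + L * b01 * x10 + (L⁻¹ * b10 * x01 + L⁻¹ * b11 * x11))
      (L * (b00 * x00))
    have : 0 ≤ K * K := by positivity
    rw [hβ]
    linarith
  obtain ⟨h5, h6⟩ := diag_bound hη hT.le hl h1 h2 h3 h4
  have h8 : |x10| ≤ (β + T * β) / η / κ := by
    rw [le_div_iff₀ hκ]
    refine le_trans ?_ h5
    rw [abs_mul, mul_comm]
    exact mul_le_mul_of_nonneg_right hb01 (abs_nonneg _)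
  have h9 : |x01| ≤ (β + T * β) / η / κ := by
    rw [le_div_iff₀ hκ]
    refine le_trans ?_ h6
    rw [abs_mul, mul_comm]
    exact mul_le_mul_of_nonneg_right hb10 (abs_nonneg _)
  have h10 : 0 ≤ (β + T * β) / η / κ := by positivity
  exact ⟨hXd.1.trans (by linarith), h9.trans (by linarith), h8.trans (by linarith),
    hXd.2.trans (by linarith)⟩

/-- Bounded traces: after a conjugation in `SL(2, ℝ)` all entries are bounded. -/
theorem exists_frame (hΓ : IsClosedSurface Γ) (Φ : Set (MulAut Γ))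
    (hb : ∀ g : Γ, ∃ M, ∀ φ ∈ Φ, |tr (φ g)| ≤ M) :
    ∃ p : MulAut Γ → SL(2, ℝ), ∀ c : Γ, ∃ M, ∀ φ ∈ Φ, ∀ i j,
      |((p φ)⁻¹ * (φ c : Γ) * p φ : SL(2, ℝ)) i j| ≤ M := by
  obtain ⟨a, b, hab⟩ := hΓ.exists_not_comm
  have ha : a ≠ 1 := by
    rintro rfl
    apply hab
    group
  obtain ⟨ε, hε, hgap1, hgap2⟩ := hΓ.trace_gap
  set η := 2 * Real.sinh (ε / 2) with hη
  have hη0 : 0 < η := by
    have : 0 < Real.sinh (ε / 2) := Real.sinh_pos_iff.2 (by linarith)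
    linarith
  set δ := 2 * Real.cosh (ε / 2) - 2 with hδ
  have hδ0 : 0 < δ := by
    have : 1 < Real.cosh (ε / 2) := Real.one_lt_cosh.2 (by linarith)
    linarith
  -- a frame for each `φ`
  have hframe : ∀ φ : MulAut Γ, ∃ (p : SL(2, ℝ)) (lam : ℝ), η ≤ |lam - lam⁻¹| ∧
      |lam| ≤ |tr (φ a)| ∧ |lam⁻¹| ≤ |tr (φ a)| ∧
      (p⁻¹ * (φ a : Γ) * p : SL(2, ℝ)) 0 0 = lam ∧ (p⁻¹ * (φ a : Γ) * p : SL(2, ℝ)) 1 1 = lam⁻¹ ∧
      (p⁻¹ * (φ a : Γ) * p : SL(2, ℝ)) 0 1 = 0 ∧ (p⁻¹ * (φ a : Γ) * p : SL(2, ℝ)) 1 0 = 0 ∧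
      δ ≤ |(p⁻¹ * (φ b : Γ) * p : SL(2, ℝ)) 0 1| ^ 2 * (lam - lam⁻¹) ^ 2 ∧
      |(p⁻¹ * (φ b : Γ) * p : SL(2, ℝ)) 1 0| ^ 2 = |(p⁻¹ * (φ b : Γ) * p : SL(2, ℝ)) 0 1| ^ 2 ∧
      |(p⁻¹ * (φ b : Γ) * p : SL(2, ℝ)) 0 1| ^ 2 = |(p⁻¹ * (φ b : Γ) * p : SL(2, ℝ)) 0 1 *
        (p⁻¹ * (φ b : Γ) * p : SL(2, ℝ)) 1 0| := by
    intro φ
    have hφa : φ a ≠ 1 := fun h => ha (by simpa using h)
    obtain ⟨p, lam, h1, h2, h3, h00, h11, h01, h10⟩ := hgap2 (φ a) hφa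
    have hl0 : lam ≠ 0 := by
      rintro rfl
      rw [inv_zero, sub_zero, abs_zero] at h1
      linarith
    set A := p⁻¹ * (φ a : Γ) * p with hA
    set B := p⁻¹ * (φ b : Γ) * p with hB
    have hcomm : A * B * A⁻¹ * B⁻¹ = p⁻¹ * (φ (a * b * a⁻¹ * b⁻¹) : Γ) * p := by
      rw [hA, hB]
      simp only [map_mul, map_inv, Subgroup.coe_mul, Subgroup.coe_inv]
      group
    have htr : |tr (A * B * A⁻¹ * B⁻¹)| ≥ 2 * Real.cosh (ε / 2) := by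
      rw [hcomm, tr_conj]
      exact hgap1 _ fun h => hab (φ.injective (by rw [h, map_one]))
    have h4 := tr_comm_diag hl0 h00 h11 h01 h10 (B := B)
    have h5 : δ ≤ |B 0 1 * B 1 0| * (lam - lam⁻¹) ^ 2 := by
      have e1 : |tr (A * B * A⁻¹ * B⁻¹) - 2| = |B 0 1 * B 1 0| * (lam - lam⁻¹) ^ 2 := by
        rw [h4, abs_mul, abs_neg, abs_of_nonneg (sq_nonneg (lam - lam⁻¹))]
      rw [← e1]
      have := abs_sub_abs_le_abs_sub (tr (A * B * A⁻¹ * B⁻¹)) 2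
      rw [abs_of_pos (by norm_num : (0 : ℝ) < 2)] at this
      linarith
    have hne : B 0 1 * B 1 0 ≠ 0 := by
      intro h0
      rw [h0, abs_zero, zero_mul] at h5
      linarith
    obtain ⟨D, hD, hD1, hD2⟩ := exists_balance B hne
    have hconj : ∀ X : SL(2, ℝ), (p * D)⁻¹ * X * (p * D) = D⁻¹ * (p⁻¹ * X * p) * D := by
      intro X; group
    refine ⟨p * D, lam, h1, h2, h3, ?_⟩
    rw [hconj, hconj, ← hA, ← hB]
    obtain ⟨d1, d2, d3, d4⟩ := hD A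
    refine ⟨d1.trans h00, d2.trans h11, d3 h01, d4 h10, ?_, ?_, ?_⟩
    · rw [sq_abs, hD1]; exact h5
    · rw [sq_abs, sq_abs, hD1, hD2]
    · have e3 : |(D⁻¹ * B * D) 0 1 * (D⁻¹ * B * D) 1 0| ^ 2 = (|B 0 1 * B 1 0|) ^ 2 := by
        rw [abs_mul, mul_pow, sq_abs, sq_abs, hD1, hD2]; ring
      have e4 := (sq_eq_sq₀ (abs_nonneg _) (abs_nonneg _)).1 e3
      rw [e4, sq_abs, hD1]
  choose p lam hlam1 hlam2 hlam3 a00 a11 a01 a10 hb1 hb2 hb3 using hframe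
  refine ⟨p, fun c => ?_⟩
  obtain ⟨Ma, hMa⟩ := hb a
  obtain ⟨Mb, hMb⟩ := hb b
  obtain ⟨Mab, hMab⟩ := hb (a * b)
  obtain ⟨Mc, hMc⟩ := hb c
  obtain ⟨Mac, hMac⟩ := hb (a * c)
  obtain ⟨Mbc, hMbc⟩ := hb (b * c)
  obtain ⟨Mabc, hMabc⟩ := hb (a * b * c)
  -- one bound for all the traces
  obtain ⟨T, hT0, hT⟩ : ∃ T : ℝ, 0 < T ∧ Ma ≤ T ∧ Mb ≤ T ∧ Mab ≤ T ∧ Mc ≤ T ∧ Mac ≤ T ∧ Mbc ≤ T ∧
      Mabc ≤ T := by
    refine ⟨|Ma| + |Mb| + |Mab| + |Mc| + |Mac| + |Mbc| + |Mabc| + 1, by positivity, ?_⟩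
    have i1 := le_abs_self Ma; have i2 := le_abs_self Mb; have i3 := le_abs_self Mab
    have i4 := le_abs_self Mc; have i5 := le_abs_self Mac; have i6 := le_abs_self Mbc
    have i7 := le_abs_self Mabc
    have j1 := abs_nonneg Ma; have j2 := abs_nonneg Mb; have j3 := abs_nonneg Mab
    have j4 := abs_nonneg Mc; have j5 := abs_nonneg Mac; have j6 := abs_nonneg Mbc
    have j7 := abs_nonneg Mabc
    refine ⟨?_, ?_, ?_, ?_, ?_, ?_, ?_⟩ <;> linarith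
  obtain ⟨t1, t2, t3, t4, t5, t6, t7⟩ := hT
  set K := (T + T * T) / η with hK
  set κ := Real.sqrt δ / (2 * T) with hκ
  have hκ0 : 0 < κ := by
    have := Real.sqrt_pos.2 hδ0
    positivity
  refine ⟨K + ((T + 2 * T * (K * K) + 2 * (K * K)) + T * (T + 2 * T * (K * K) + 2 * (K * K))) /
    η / κ, fun φ hφ => ?_⟩
  set A := (p φ)⁻¹ * (φ a : Γ) * p φ with hA
  set B := (p φ)⁻¹ * (φ b : Γ) * p φ with hB
  set X := (p φ)⁻¹ * (φ c : Γ) * p φ with hX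
  have hla : |lam φ| ≤ T := (hlam2 φ).trans ((hMa φ hφ).trans t1)
  have hlb : |(lam φ)⁻¹| ≤ T := (hlam3 φ).trans ((hMa φ hφ).trans t1)
  have hl0 : lam φ ≠ 0 := by
    intro h0
    have := hlam1 φ
    rw [h0, inv_zero, sub_zero, abs_zero] at this
    linarith
  have trX : |tr X| ≤ T := by rw [hX, tr_conj]; exact (hMc φ hφ).trans t4
  have trB : |tr B| ≤ T := by rw [hB, tr_conj]; exact (hMb φ hφ).trans t2
  have conj_mul : ∀ x y : Γ, ((p φ)⁻¹ * (φ x : Γ) * p φ) * ((p φ)⁻¹ * (φ y : Γ) * p φ) =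
      (p φ)⁻¹ * (φ (x * y) : Γ) * p φ := by
    intro x y
    simp only [map_mul, Subgroup.coe_mul]
    group
  have trAX : |tr (A * X)| ≤ T := by
    rw [hA, hX, conj_mul, tr_conj]; exact (hMac φ hφ).trans t5
  have trAB : |tr (A * B)| ≤ T := by
    rw [hA, hB, conj_mul, tr_conj]; exact (hMab φ hφ).trans t3
  have trBX : |tr (B * X)| ≤ T := by
    rw [hB, hX, conj_mul, tr_conj]; exact (hMbc φ hφ).trans t6
  have trABX : |tr (A * B * X)| ≤ T := by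
    rw [hA, hB, hX, conj_mul, conj_mul, tr_conj]; exact (hMabc φ hφ).trans t7
  have ea00 : A 0 0 = lam φ := a00 φ
  have ea11 : A 1 1 = (lam φ)⁻¹ := a11 φ
  have ea01 : A 0 1 = 0 := a01 φ
  have ea10 : A 1 0 = 0 := a10 φ
  set L := lam φ with hL
  have hLη : η ≤ |L - L⁻¹| := hlam1 φ
  -- lower bound for the off-diagonal entries of `B`
  have h6 : κ ≤ |B 0 1| := by
    have i1 : (L - L⁻¹) ^ 2 ≤ (2 * T) ^ 2 := by
      rw [← sq_abs (L - L⁻¹)]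
      apply pow_le_pow_left₀ (abs_nonneg _)
      exact (abs_sub _ _).trans (by linarith)
    have i2 : δ ≤ |B 0 1| ^ 2 * (2 * T) ^ 2 :=
      (hb1 φ).trans (mul_le_mul_of_nonneg_left i1 (by positivity))
    rw [hκ, div_le_iff₀ (by positivity)]
    apply Real.sqrt_le_iff.2
    refine ⟨by positivity, ?_⟩
    rw [mul_pow]
    exact i2
  have h7 : κ ≤ |B 1 0| := by
    have : |B 1 0| = |B 0 1| := (sq_eq_sq₀ (abs_nonneg _) (abs_nonneg _)).1 (hb2 φ)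
    rw [this]; exact h6
  rw [tr_eq] at trX trB
  rw [tr_mul, ea00, ea01, ea10, ea11] at trAX trAB
  rw [tr_mul] at trBX trABX
  simp only [sl_mul_apply A B, ea00, ea01, ea10, ea11, zero_mul, add_zero, zero_add] at trAX trAB trABX
  obtain ⟨r1, r2, r3, r4⟩ := entries_bound hη0 hT0 hκ0 hK hLη hla hlb trX trAX trB trAB trBX trABX h6 h7
  intro i j
  fin_cases i <;> fin_cases j
  · exact r1
  · exact r2
  · exact r3
  · exact r4

/-- A set of automorphisms with bounded traces has finite image in the outer automorphism group. -/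
theorem finite_out (hΓ : IsClosedSurface Γ) (Φ : Set (MulAut Γ))
    (hb : ∀ g : Γ, ∃ M, ∀ φ ∈ Φ, |tr (φ g)| ≤ M) :
    {q : Out Γ | ∃ φ ∈ Φ, (φ : Out Γ) = q}.Finite := by
  obtain ⟨p, hp⟩ := exists_frame hΓ Φ hb
  obtain ⟨F, hF, hgen⟩ := hΓ.exists_gen
  obtain ⟨r, hr0, hr⟩ := hΓ.exists_radius
  choose f hf using hr
  choose M hM using hp
  -- the finite set of possible images of a generator
  set S : Γ → Set Γ := fun s => {g | ∃ z, dist I z ≤ r ∧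
    dist z (g • z) ≤ Real.arcosh (2 * M s ^ 2 + 1)} with hS
  have hSfin : ∀ s, (S s).Finite := fun s => hΓ.finite_disp _ _
  have hkey : ∀ φ ∈ Φ, ∀ s : Γ, f (p φ • I) * φ s * (f (p φ • I))⁻¹ ∈ S s := by
    intro φ hφ s
    refine ⟨f (p φ • I) • p φ • I, hf _, ?_⟩
    rw [mul_smul, mul_smul, inv_smul_smul, dist_smul]
    have h1 := cosh_dist_smul (p φ) (φ s : Γ)
    have h2 := hM s φ hφ
    have e : ∀ i j, (((p φ)⁻¹ * (φ s : Γ) * p φ : SL(2, ℝ)) i j) ^ 2 ≤ M s ^ 2 := by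
      intro i j
      rw [← sq_abs]
      exact pow_le_pow_left₀ (abs_nonneg _) (h2 i j) 2
    have h3 : Real.cosh (dist (p φ • I) (φ s • p φ • I)) ≤ 2 * M s ^ 2 + 1 := by
      change Real.cosh (dist (p φ • I) ((φ s : SL(2, ℝ)) • p φ • I)) ≤ _
      rw [h1]
      linarith [e 0 0, e 0 1, e 1 0, e 1 1]
    have h4 := Real.arcosh_cosh (x := dist (p φ • I) (φ s • p φ • I)) dist_nonneg
    rw [← h4]
    apply Real.arcosh_le_arcosh _ _ |>.2 h3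
    · exact Real.cosh_pos _
    · positivity
  -- restriction to the generators
  let G : Set (F → Γ) := {u | ∀ s : F, u s ∈ S s}
  have hG : G.Finite := by
    have := hF.to_subtype
    exact Set.Finite.pi' fun s => hSfin s
  have hinj : ∀ φ ∈ Φ, ∃ φ' : MulAut Γ, (φ' : Out Γ) = (φ : Out Γ) ∧ (fun s : F => φ' s) ∈ G := by
    intro φ hφ
    refine ⟨MulAut.conj (f (p φ • I)) * φ, ?_, ?_⟩
    · rw [QuotientGroup.eq]
      refine ⟨φ⁻¹ (f (p φ • I))⁻¹, ?_⟩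
      ext x
      simp only [mul_inv_rev, MulAut.mul_apply, map_inv]
      simp [MulAut.conj_apply, ← map_inv]
    · intro s
      have := hkey φ hφ s
      simpa [MulAut.mul_apply, MulAut.conj_apply] using this
  have hres : Set.InjOn (fun (φ : MulAut Γ) (s : F) => φ s) Set.univ := by
    intro φ _ ψ _ h
    have h1 : Set.EqOn (φ : MulAut Γ).toMonoidHom (ψ : MulAut Γ).toMonoidHom F := by
      intro s hs
      exact congrFun h ⟨s, hs⟩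
    have h2 := MonoidHom.eq_of_eqOn_top (hgen ▸ MonoidHom.eqOn_closure h1)
    apply MulEquiv.ext
    intro x
    exact congrArg (fun f : Γ →* Γ => f x) h2
  have hfin2 : {φ : MulAut Γ | (fun s : F => φ s) ∈ G}.Finite := by
    apply Set.Finite.of_finite_image (f := fun (φ : MulAut Γ) (s : F) => φ s)
    · exact hG.subset (by rintro _ ⟨φ, hφ, rfl⟩; exact hφ)
    · exact hres.mono (Set.subset_univ _)
  refine (hfin2.image fun φ : MulAut Γ => (φ : Out Γ)).subset ?_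
  rintro q ⟨φ, hφ, rfl⟩
  obtain ⟨φ', h1, h2⟩ := hinj φ hφ
  exact ⟨φ', h2, h1⟩

/-- Bounded traces on the simple elements imply bounded traces on all elements. -/
theorem bounded_of_simple (hΓ : IsClosedSurface Γ) (Φ : Set (MulAut Γ))
    (hb : ∀ g : Γ, IsSimpleElt g → ∃ M, ∀ φ ∈ Φ, |tr (φ g)| ≤ M) (g : Γ) :
    ∃ M, ∀ φ ∈ Φ, |tr (φ g)| ≤ M := by
  by_contra hcon
  have htc : ∀ (φ : MulAut Γ) (g h : Γ), tr (φ (h * g * h⁻¹)) = tr (φ g) := by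
    intro φ g h
    have := tr_conj ((φ h)⁻¹ : Γ) (φ g : Γ)
    rw [← this]
    simp [map_mul]
  obtain ⟨g', hg', hs⟩ := hΓ.descent {g | ¬ ∃ M, ∀ φ ∈ Φ, |tr (φ g)| ≤ M} (by
      rintro g hg h ⟨M, hM⟩
      exact hg ⟨M, fun φ hφ => by rw [← htc φ g h]; exact hM φ hφ⟩) (by
      rw [Set.mem_ofPred_eq, not_not]
      refine ⟨2, fun φ _ => ?_⟩
      rw [map_one, tr_eq]
      simp
      norm_num) ⟨g, hcon⟩ (by
      intro b d h1 h2 h3
      rw [Set.mem_ofPred_eq, not_not] at h1 h2 h3 ⊢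
      obtain ⟨M1, h1⟩ := h1
      obtain ⟨M2, h2⟩ := h2
      obtain ⟨M3, h3⟩ := h3
      refine ⟨M1 * M2 + M3, fun φ hφ => ?_⟩
      have h4 := tr_identity (φ b : Γ) (φ d : Γ)
      have e1 : ((φ (b * d) : Γ) : SL(2, ℝ)) = (φ b : Γ) * (φ d : Γ) := by
        rw [map_mul, Subgroup.coe_mul]
      have e2 : ((φ (b * d⁻¹) : Γ) : SL(2, ℝ)) = (φ b : Γ) * ((φ d : Γ) : SL(2, ℝ))⁻¹ := by
        rw [map_mul, Subgroup.coe_mul, map_inv, Subgroup.coe_inv]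
      rw [e1, h4, ← e2]
      refine (abs_sub _ _).trans (add_le_add ?_ (h3 φ hφ))
      rw [abs_mul]
      exact mul_le_mul (h1 φ hφ) (h2 φ hφ) (abs_nonneg _) ((abs_nonneg _).trans (h1 φ hφ)))
  exact hg' (hb g' hs)

end Pool.Agent.N512.SA
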