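import Pool.Agent.N512.SA.Chain
import Pool.Agent.N512.SA.Traces

/-!
# Uniform growth near a simple Anosov representation
-/

set_option autoImplicit false

open scoped MatrixGroups UpperHalfPlane Matrix
open UpperHalfPlane

namespace Pool.Agent.N512.SA

open Pool.Agent.Y473.SA

variable {Γ : Subgroup SL(2, ℝ)} {d : ℕ}

theorem continuous_eval (t : ℝ) : Continuous fun c : UT => c.1 t :=
  (continuous_apply t).comp continuous_subtype_val

theorem continuous_act (g : Γ) : Continuous (act g : UT → UT) :=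
  Continuous.subtype_mk (continuous_pi fun t => (isometry_smul ℍ (g : SL(2, ℝ))).continuous.comp
    (continuous_eval t)) _

theorem continuous_flow (t : ℝ) : Continuous (flow t : UT → UT) :=
  Continuous.subtype_mk (continuous_pi fun s => continuous_eval (s + t)) _

theorem isSimpleClosed_flow {c : UT} {l : ℝ} (h : IsSimpleClosed Γ c l) (τ : ℝ) :
    IsSimpleClosed Γ (flow τ c) l := by
  obtain ⟨h1, ⟨g, hg⟩, h2⟩ := h
  refine ⟨h1, ⟨g, ?_⟩, ?_⟩
  · rw [act_flow, hg, flow_flow, flow_flow, add_comm]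
  · intro g' s t hst
    simp only [flow_apply] at hst
    obtain ⟨n, hn⟩ := h2 g' _ _ hst
    exact ⟨n, by linarith⟩

theorem isSimpleClosed_act {c : UT} {l : ℝ} (h : IsSimpleClosed Γ c l) (x : Γ) :
    IsSimpleClosed Γ (act x c) l := by
  obtain ⟨h1, ⟨g, hg⟩, h2⟩ := h
  refine ⟨h1, ⟨x * g * x⁻¹, ?_⟩, ?_⟩
  · rw [act_act, inv_mul_cancel_right, ← act_act, hg, act_flow]
  · intro g' s t hst
    simp only [act_apply] at hst
    refine h2 (x⁻¹ * g' * x) s t ?_
    rw [mul_smul, mul_smul, hst, inv_smul_smul]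

theorem isSimpleClosed_rev {c : UT} {l : ℝ} (h : IsSimpleClosed Γ c l) :
    IsSimpleClosed Γ (rev c) l := by
  obtain ⟨h1, ⟨g, hg⟩, h2⟩ := h
  refine ⟨h1, ⟨g⁻¹, ?_⟩, ?_⟩
  · rw [act_rev, inv_axis hg, rev_flow, neg_neg]
  · intro g' s t hst
    simp only [rev_apply] at hst
    obtain ⟨n, hn⟩ := h2 g' _ _ hst
    refine ⟨-n, ?_⟩
    push_cast
    linarith

theorem simple_mem {c : UT} {l : ℝ} (h : IsSimpleClosed Γ c l) : c ∈ birmanSeries Γ :=
  subset_closure ⟨l, h⟩

theorem flow_mem {c : UT} (h : c ∈ birmanSeries Γ) (τ : ℝ) : flow τ c ∈ birmanSeries Γ := by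
  refine map_mem_closure (continuous_flow τ) h ?_
  rintro c ⟨l, hl⟩
  exact ⟨l, isSimpleClosed_flow hl τ⟩

theorem act_mem {c : UT} (h : c ∈ birmanSeries Γ) (x : Γ) : act x c ∈ birmanSeries Γ := by
  refine map_mem_closure (continuous_act x) h ?_
  rintro c ⟨l, hl⟩
  exact ⟨l, isSimpleClosed_act hl x⟩

theorem isClosed_isometry : IsClosed {c : ℝ → ℍ | Isometry c} := by
  have : {c : ℝ → ℍ | Isometry c} = ⋂ (s : ℝ) (t : ℝ), {c | dist (c s) (c t) = dist s t} := by
    ext c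
    simp only [Set.mem_ofPred_eq, Set.mem_iInter, isometry_iff_dist_eq]
  rw [this]
  refine isClosed_iInter fun s => isClosed_iInter fun t => ?_
  exact isClosed_eq ((continuous_apply s).dist (continuous_apply t)) continuous_const

/-- The part of the Birman-Series set over a ball is compact. -/
theorem isCompact_part (Γ : Subgroup SL(2, ℝ)) (r : ℝ) :
    IsCompact {c : UT | c ∈ birmanSeries Γ ∧ dist I (c.1 0) ≤ r} := by
  have h1 : IsCompact (Set.pi Set.univ fun t : ℝ => Metric.closedBall I (r + |t|)) :=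
    isCompact_univ_pi fun t => isCompact_closedBall _ _
  have h2 := (isClosed_isometry.isClosedEmbedding_subtypeVal).isCompact_preimage h1
  refine h2.of_isClosed_subset ?_ ?_
  · refine IsClosed.inter isClosed_closure ?_
    exact isClosed_le (continuous_const.dist (continuous_eval 0)) continuous_const
  · rintro c ⟨-, hc⟩ t -
    rw [Metric.mem_closedBall]
    have := dist_triangle (c.1 t) (c.1 0) I
    rw [line_dist, sub_zero, dist_comm (c.1 0) I] at this
    linarith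

/-- Uniform bounds over the compact part. -/
theorem exists_bound {P : UT → Matrix (Fin d) (Fin d) ℂ} {N : UT → Seminorm ℂ (Fin d → ℂ)}
    (hP : ContinuousOn P (birmanSeries Γ))
    (hN : ContinuousOn (fun p : UT × (Fin d → ℂ) => N p.1 p.2) (birmanSeries Γ ×ˢ Set.univ))
    (hN0 : ∀ c ∈ birmanSeries Γ, ∀ v, N c v = 0 → v = 0) (r : ℝ) :
    ∃ M, 1 ≤ M ∧ ∀ c ∈ birmanSeries Γ, dist I (c.1 0) ≤ r → mn (P c) ≤ M ∧
      ∀ v, N c v ≤ M * ‖v‖ ∧ ‖v‖ ≤ M * N c v := by
  have hK := isCompact_part Γ r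
  set K := {c : UT | c ∈ birmanSeries Γ ∧ dist I (c.1 0) ≤ r} with hKdef
  have hKs : IsCompact (K ×ˢ Metric.sphere (0 : Fin d → ℂ) 1) := hK.prod (isCompact_sphere _ _)
  have hsub : K ×ˢ Metric.sphere (0 : Fin d → ℂ) 1 ⊆ birmanSeries Γ ×ˢ Set.univ :=
    fun p hp => ⟨hp.1.1, trivial⟩
  obtain ⟨M1, hM1⟩ := hK.bddAbove_image (continuous_mn.comp_continuousOn (hP.mono fun c hc => hc.1))
  obtain ⟨M2, hM2⟩ := hKs.bddAbove_image (hN.mono hsub)
  have hne : ∀ p ∈ K ×ˢ Metric.sphere (0 : Fin d → ℂ) 1, N p.1 p.2 ≠ 0 := by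
    intro p hp h0
    have h1 := hN0 _ hp.1.1 _ h0
    have h2 := hp.2
    rw [mem_sphere_zero_iff_norm, h1, norm_zero] at h2
    exact zero_ne_one h2
  obtain ⟨M3, hM3⟩ := hKs.bddAbove_image ((hN.mono hsub).inv₀ hne)
  refine ⟨max 1 (max M1 (max M2 M3)), le_max_left _ _, fun c hc hcr => ⟨?_, fun v => ?_⟩⟩
  · refine le_trans ?_ ((le_max_left _ _).trans (le_max_right _ _))
    exact hM1 ⟨c, ⟨hc, hcr⟩, rfl⟩
  · rcases eq_or_ne v 0 with rfl | hv
    · simp
    have hv0 : 0 < ‖v‖ := norm_pos_iff.2 hv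
    have hvC : ((‖v‖ : ℝ) : ℂ) ≠ 0 := by exact_mod_cast hv0.ne'
    set u := ((‖v‖ : ℝ) : ℂ)⁻¹ • v with hu
    have hu1 : ‖u‖ = 1 := by
      rw [hu, norm_smul, norm_inv, Complex.norm_real, norm_norm, inv_mul_cancel₀ hv0.ne']
    have hvu : N c v = ‖v‖ * N c u := by
      rw [hu, map_smul_eq_mul, norm_inv, Complex.norm_real, norm_norm, ← mul_assoc,
        mul_inv_cancel₀ hv0.ne', one_mul]
    have hmem : (c, u) ∈ K ×ˢ Metric.sphere (0 : Fin d → ℂ) 1 :=
      ⟨⟨hc, hcr⟩, by rw [mem_sphere_zero_iff_norm]; exact hu1⟩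
    have h2 : N c u ≤ M2 := hM2 ⟨(c, u), hmem, rfl⟩
    have h3 : (N c u)⁻¹ ≤ M3 := hM3 ⟨(c, u), hmem, rfl⟩
    have h4 : 0 < N c u := lt_of_le_of_ne (apply_nonneg _ _) (Ne.symm (hne _ hmem))
    have h5 : M2 ≤ max 1 (max M1 (max M2 M3)) :=
      (le_max_left _ _).trans ((le_max_right _ _).trans (le_max_right _ _))
    have h6 : M3 ≤ max 1 (max M1 (max M2 M3)) :=
      (le_max_right _ _).trans ((le_max_right _ _).trans (le_max_right _ _))
    set M := max 1 (max M1 (max M2 M3)) with hM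
    rw [hvu]
    constructor
    · nlinarith
    · have h7 : 1 ≤ M * N c u := by
        have : (N c u)⁻¹ * N c u ≤ M * N c u := mul_le_mul_of_nonneg_right (h3.trans h6) h4.le
        rwa [inv_mul_cancel₀ h4.ne'] at this
      nlinarith

end Pool.Agent.N512.SA
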